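import Mathlib

set_option autoImplicit false

/-!
The summation by parts behind the upper bound.
-/

namespace Pool.Agent.H49.Res

open Finset

/-- The constant `1 + ∑_{q = 3}^{k} 1 / q!`. -/
noncomputable def bb (k : ℕ) : ℝ := 1 + ∑ q ∈ Icc 3 k, (1 : ℝ) / (q.factorial : ℝ)

lemma bb_succ {m : ℕ} (hm : 2 ≤ m) : bb (m + 1) = bb m + 1 / ((m + 1).factorial : ℝ) := by
  rw [bb, bb, Finset.sum_Icc_succ_top (by omega)]
  ring

lemma bb_two : bb 2 = 1 := by
  rw [bb]
  simp

/-- One step of the summation by parts, combination of the constants. -/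
lemma comb_step (m : ℕ) (hm : 2 ≤ m) (t r a a' K : ℝ) (hδ : 0 ≤ m * t - a) :
    t * bb m - (m * t - a) / (m.factorial : ℝ) + r * (bb m - 1) + K * m +
        ((a' - a + r) / ((m + 1).factorial : ℝ) + K) ≤
      t * bb (m + 1) - (((m + 1 : ℕ) : ℝ) * t - a') / ((m + 1).factorial : ℝ) +
        r * (bb (m + 1) - 1) + K * ((m + 1 : ℕ) : ℝ) := by
  have hfac : ((m + 1).factorial : ℝ) = (m + 1 : ℝ) * (m.factorial : ℝ) := by
    rw [Nat.factorial_succ]
    push_cast
    ring
  have hmf : (0 : ℝ) < (m.factorial : ℝ) := by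
    exact_mod_cast Nat.factorial_pos _
  have hm0 : (0 : ℝ) ≤ m := Nat.cast_nonneg m
  rw [bb_succ hm]
  push_cast
  have e1 : (m * t - a) / ((m + 1).factorial : ℝ) ≤ (m * t - a) / (m.factorial : ℝ) := by
    apply div_le_div_of_nonneg_left hδ hmf
    rw [hfac]
    nlinarith
  have e2 : (a' - a + r) / ((m + 1).factorial : ℝ) =
      r * (1 / ((m + 1).factorial : ℝ)) + t * (1 / ((m + 1).factorial : ℝ)) +
      (m * t - a) / ((m + 1).factorial : ℝ) -
      ((m + 1) * t - a') / ((m + 1).factorial : ℝ) := by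
    ring
  rw [e2]
  generalize (m * t - a) / ((m + 1).factorial : ℝ) = u at *
  generalize (m * t - a) / (m.factorial : ℝ) = v at *
  generalize ((m + 1) * t - a') / ((m + 1).factorial : ℝ) = w at *
  generalize 1 / ((m + 1).factorial : ℝ) = z at *
  have : t * (bb m + z) - w + r * (bb m + z - 1) + K * (m + 1) -
      (t * bb m - v + r * (bb m - 1) + K * m + (r * z + t * z + u - w + K)) = v - u := by ring
  linarith

/-- The bound of the error factor. -/
lemma err_step (m k s r a t : ℝ) (hm0 : 0 ≤ m) (hmk' : m ≤ k) (hk0 : 0 < k)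
    (hs0 : 1 ≤ s) (hrn : 0 ≤ r) (ht : t = s - r) (ha : a ≤ m * t) :
    a * (r + m * k) ≤ (k * s) * (r + k ^ 2) := by
  have h2 : a ≤ m * s := by
    refine ha.trans ?_
    apply mul_le_mul_of_nonneg_left _ hm0
    rw [ht]
    linarith
  have h3 : a * (r + m * k) ≤ (m * s) * (r + m * k) := by
    apply mul_le_mul_of_nonneg_right h2
    positivity
  have h4 : (m * s : ℝ) * (r + m * k) ≤ (k * s) * (r + k ^ 2) := by
    have e1 : m * s * r ≤ k * s * r := by
      apply mul_le_mul_of_nonneg_right _ hrn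
      apply mul_le_mul_of_nonneg_right hmk'
      linarith
    have e2 : m * s * (m * k) ≤ k * s * k ^ 2 := by
      have e3 : m * m ≤ k * k := mul_le_mul hmk' hmk' hm0 hk0.le
      have e4 : m * s * (m * k) = (m * m) * (s * k) := by ring
      have e5 : k * s * k ^ 2 = (k * k) * (s * k) := by ring
      rw [e4, e5]
      apply mul_le_mul_of_nonneg_right e3
      positivity
    calc (m * s : ℝ) * (r + m * k) = m * s * r + m * s * (m * k) := by ring
      _ ≤ k * s * r + k * s * k ^ 2 := add_le_add e1 e2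
      _ = _ := by ring
  exact h3.trans h4

/-- From the recursion to the bound of `Y (m + 1)`. -/
lemma Y_step (n r k2 mk a a' p X X' Y : ℝ) (hnpos : 0 < n) (hp : 0 ≤ p)
    (hXm : X * n = a * p) (hXm1 : X' = a' * p)
    (hrec : X * (n - r - mk) + Y ≤ X') (h1 : a * (r + mk) ≤ n * (r + k2)) :
    Y ≤ (a' - a + r + k2) * p := by
  have e1 : Y ≤ X' - X * (n - r - mk) := by linarith
  have e2 : Y * n ≤ (X' - X * (n - r - mk)) * n :=
    mul_le_mul_of_nonneg_right e1 hnpos.le
  have e3 : (X' - X * (n - r - mk)) * n =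
      X' * n - (X * n) * n + (X * n) * (r + mk) := by ring
  rw [e3, hXm1, hXm] at e2
  have e4 : a * p * (r + mk) ≤ p * (n * (r + k2)) := by
    have e5 : a * p * (r + mk) = p * (a * (r + mk)) := by ring
    rw [e5]
    exact mul_le_mul_of_nonneg_left h1 hp
  have e6 : Y * n ≤ ((a' - a + r + k2) * p) * n := by
    calc Y * n ≤ a' * p * n - a * p * n + a * p * (r + mk) := e2
      _ ≤ a' * p * n - a * p * n + p * (n * (r + k2)) := by linarith
      _ = _ := by ring
  exact le_of_mul_le_mul_right e6 hnpos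

/-- The term bound. -/
lemma term_step (f Y A k2 p d : ℝ) (hf1 : 1 ≤ f) (hk2 : 0 ≤ k2) (hp : 0 ≤ p) (hd : 0 ≤ d)
    (hY : Y ≤ (A + k2) * p) :
    Y / f * d ≤ (p * d) * (A / f + k2) := by
  have hfpos : 0 < f := by linarith
  have e1 : Y / f ≤ ((A + k2) * p) / f :=
    div_le_div_of_nonneg_right hY hfpos.le
  have e2 : ((A + k2) * p) / f ≤ (A / f + k2) * p := by
    have e3 : ((A + k2) * p) / f = (A / f + k2 / f) * p := by ring
    rw [e3]
    apply mul_le_mul_of_nonneg_right _ hp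
    have e4 : k2 / f ≤ k2 := div_le_self hk2 hf1
    linarith
  calc Y / f * d ≤ ((A / f + k2) * p) * d := mul_le_mul_of_nonneg_right (e1.trans e2) hd
    _ = _ := by ring

lemma sum_bound (k s r : ℕ) (X Y : ℕ → ℝ) (hk : 2 ≤ k) (hs : 1 ≤ s) (hr : r ≤ s)
    (hX0 : ∀ q, 0 ≤ X q) (hX1 : X 1 = 0)
    (hXle : ∀ q, 1 ≤ q → q ≤ k → X q ≤ q * (((s : ℝ) - r) * ((s : ℝ) * k) ^ (q - 1)))
    (hrec : ∀ q, X q * ((s : ℝ) * k - r - q * k) + Y (q + 1) ≤ X (q + 1)) :
    ∑ q ∈ Icc 2 k, Y q / (q.factorial : ℝ) * ((k : ℝ) * s) ^ (k - q) ≤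
      ((s : ℝ) * bb k - r + (k : ℝ) ^ 3) * ((k : ℝ) * s) ^ (k - 1) := by
  have hk0 : (0 : ℝ) < k := by
    have : 0 < k := by omega
    exact_mod_cast this
  have hs0 : (1 : ℝ) ≤ s := by exact_mod_cast hs
  have hr0 : (r : ℝ) ≤ s := by exact_mod_cast hr
  have hrn : (0 : ℝ) ≤ r := Nat.cast_nonneg r
  obtain ⟨n, hn⟩ : ∃ n : ℝ, n = (k : ℝ) * s := ⟨_, rfl⟩
  have hn' : (s : ℝ) * k = n := by rw [hn]; ring
  have hnpos : 0 < n := by
    rw [hn]
    positivity
  rw [hn'] at hXle hrec
  rw [← hn]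
  obtain ⟨t, ht⟩ : ∃ t : ℝ, t = (s : ℝ) - r := ⟨_, rfl⟩
  have ht0 : 0 ≤ t := by rw [ht]; linarith
  rw [← ht] at hXle
  -- the normalised sequence
  obtain ⟨a, ha⟩ : ∃ a : ℕ → ℝ, a = fun q => X q / n ^ (q - 1) := ⟨_, rfl⟩
  have haX : ∀ q, X q = a q * n ^ (q - 1) := by
    intro q
    simp only [ha]
    field_simp
  have ha0 : ∀ q, 0 ≤ a q := by
    intro q
    simp only [ha]
    exact div_nonneg (hX0 q) (by positivity)
  have hale : ∀ q, 1 ≤ q → q ≤ k → a q ≤ q * t := by
    intro q h1 h2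
    simp only [ha]
    rw [div_le_iff₀ (by positivity)]
    have := hXle q h1 h2
    calc X q ≤ _ := this
      _ = _ := by ring
  have key : ∀ m, 2 ≤ m → m ≤ k →
      ∑ q ∈ Icc 2 m, Y q / (q.factorial : ℝ) * n ^ (k - q) ≤
        n ^ (k - 1) * (t * bb m - (m * t - a m) / (m.factorial : ℝ) + r * (bb m - 1) +
          (k : ℝ) ^ 2 * m) := by
    intro m hm
    induction m, hm using Nat.le_induction with
    | base =>
      intro _
      rw [Finset.Icc_self, Finset.sum_singleton]
      have h1 := hrec 1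
      rw [hX1, zero_mul, zero_add] at h1
      have h2 : X 2 = a 2 * n := by
        rw [haX 2]
        norm_num
      have h3 : n ^ (k - 1) = n ^ (k - 2) * n := by
        rw [← pow_succ]
        congr 1
        omega
      have hY : Y 2 ≤ a 2 * n := by
        rw [← h2]
        exact h1
      have hpw : 0 ≤ n ^ (k - 2) := by positivity
      rw [bb_two, h3]
      have hf : ((Nat.factorial 2 : ℕ) : ℝ) = 2 := by norm_num [Nat.factorial]
      rw [hf]
      have h4 : Y 2 / 2 * n ^ (k - 2) ≤ (a 2 * n) / 2 * n ^ (k - 2) := by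
        apply mul_le_mul_of_nonneg_right _ hpw
        linarith
      have h5 : 0 ≤ n ^ (k - 2) * n * ((k : ℝ) ^ 2 * ((2 : ℕ) : ℝ)) := by positivity
      have h6 : n ^ (k - 2) * n * (t * 1 - (((2 : ℕ) : ℝ) * t - a 2) / 2 + r * (1 - 1) +
          (k : ℝ) ^ 2 * ((2 : ℕ) : ℝ)) =
          (a 2 * n) / 2 * n ^ (k - 2) + n ^ (k - 2) * n * ((k : ℝ) ^ 2 * ((2 : ℕ) : ℝ)) := by
        push_cast
        ring
      rw [h6]
      exact h4.trans (le_add_of_nonneg_right h5)
    | succ m hm ih =>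
      intro hmk
      have ih' := ih (by omega)
      rw [Finset.sum_Icc_succ_top (by omega)]
      have hk2 : n ^ (k - 1) = n ^ m * n ^ (k - (m + 1)) := by
        rw [← pow_add]
        congr 1
        omega
      have hXm1 : X (m + 1) = a (m + 1) * n ^ m := by
        rw [haX (m + 1)]
        norm_num
      have hXm : X m * n = a m * n ^ m := by
        rw [haX m, mul_assoc, ← pow_succ]
        congr 2
        omega
      have hr1 := hrec m
      have hf1 : (1 : ℝ) ≤ ((m + 1).factorial : ℝ) := by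
        exact_mod_cast Nat.factorial_pos _
      have hm0 : (0 : ℝ) ≤ m := Nat.cast_nonneg m
      have hmk' : (m : ℝ) ≤ k := by
        exact_mod_cast (by omega : m ≤ k)
      have h1 : a m * ((r : ℝ) + m * k) ≤ n * (r + (k : ℝ) ^ 2) := by
        rw [hn]
        exact err_step m k s r (a m) t hm0 hmk' hk0 hs0 hrn ht (hale m (by omega) (by omega))
      have hY' : Y (m + 1) ≤ (a (m + 1) - a m + r + (k : ℝ) ^ 2) * n ^ m :=
        Y_step n r ((k : ℝ) ^ 2) (m * k) (a m) (a (m + 1)) (n ^ m) (X m) (X (m + 1)) (Y (m + 1))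
          hnpos (by positivity) hXm hXm1 hr1 h1
      have hterm : Y (m + 1) / ((m + 1).factorial : ℝ) * n ^ (k - (m + 1)) ≤
          n ^ (k - 1) * ((a (m + 1) - a m + r) / ((m + 1).factorial : ℝ) + (k : ℝ) ^ 2) := by
        rw [hk2]
        exact term_step _ _ _ _ _ _ hf1 (by positivity) (by positivity) (by positivity) hY'
      have hnk : 0 ≤ n ^ (k - 1) := by positivity
      have hδ : 0 ≤ m * t - a m := by
        have := hale m (by omega) (by omega)
        linarith
      have hcomb := comb_step m hm t r (a m) (a (m + 1)) ((k : ℝ) ^ 2) hδ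
      refine (add_le_add ih' hterm).trans ?_
      rw [← mul_add]
      exact mul_le_mul_of_nonneg_left hcomb hnk
  have h1 := key k hk le_rfl
  refine h1.trans ?_
  rw [mul_comm]
  apply mul_le_mul_of_nonneg_right _ (by positivity)
  have hδ : 0 ≤ (k * t - a k) / (k.factorial : ℝ) := by
    apply div_nonneg _ (Nat.cast_nonneg _)
    have := hale k (by omega) le_rfl
    linarith
  have e1 : t * bb k + r * (bb k - 1) = s * bb k - r := by
    rw [ht]
    ring
  have e2 : (k : ℝ) ^ 2 * k = (k : ℝ) ^ 3 := by ring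
  linarith

end Pool.Agent.H49.Res
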