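import Pool.Agent.H49.Res.Rec
import Pool.Agent.H49.Res.Ineq

set_option autoImplicit false
set_option linter.unusedSectionVars false

/-!
The upper bound for the number of members of a resilient family.
-/

namespace Pool.Agent.H49.Res

open Finset

section bound

variable {α : Type*} [DecidableEq α]
variable {s k : ℕ} {F : Finset (Finset α)} {pt : Fin s × Fin k → α} {K : ℕ}

lemma card_AA (h : Base F k s pt) : (AA pt).card = s * k := by
  rw [AA, card_image_of_injective _ h.inj, card_univ, Fintype.card_prod, Fintype.card_fin,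
    Fintype.card_fin]

open Classical in
/-- Members through a heavy point. -/
lemma bound_one (h : Base F k s pt) :
    (F.filter (fun f => ∃ z, Rich F pt K z ∧ pt z ∈ f)).card ≤
      RR F pt K * (k * s) ^ (k - 1) := by
  have hk := h.kpos
  have h1 : F.filter (fun f => ∃ z, Rich F pt K z ∧ pt z ∈ f) ⊆
      (univ.filter (fun z : Fin s × Fin k => Rich F pt K z)).biUnion
        (fun z => F.filter (fun f => {pt z} ⊆ f)) := by
    intro f hf
    rw [mem_filter] at hf
    obtain ⟨hf, z, hz, hzf⟩ := hf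
    rw [mem_biUnion]
    exact ⟨z, mem_filter.2 ⟨mem_univ _, hz⟩, mem_filter.2 ⟨hf, singleton_subset_iff.2 hzf⟩⟩
  refine (card_le_card h1).trans ?_
  refine (card_biUnion_le_card_mul _ _ ((k * s) ^ (k - 1)) ?_).trans le_rfl
  intro z _
  exact h.degb (k - 1) {pt z} (by rw [card_singleton]; omega)

open Classical in
/-- Members whose trace is not heavy. -/
lemma bound_two (h : Base F k s pt) :
    (F.filter (fun f => ¬ Heavy F (AA pt) K (f ∩ AA pt))).card ≤
      k * (K * (k * s) ^ (k - 1)) := by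
  have hk := h.kpos
  have hW : ∀ P : Finset α, ¬ Heavy F (AA pt) K P →
      ∃ W : Finset α, W.card ≤ K ∧ ∀ f ∈ F, f ∩ AA pt = P → ¬ Disjoint (f \ AA pt) W := by
    intro P hP
    rw [Heavy] at hP
    push Not at hP
    exact hP
  choose! W hWc hWd using hW
  have hclass : ∀ P : Finset α, ¬ Heavy F (AA pt) K P → P ⊆ AA pt → P.card < k →
      (F.filter (fun f => f ∩ AA pt = P)).card ≤ K * (k * s) ^ (k - 1 - P.card) := by
    intro P hP hPA hPk
    have h1 : F.filter (fun f => f ∩ AA pt = P) ⊆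
        (W P \ AA pt).biUnion (fun w => F.filter (fun f => insert w P ⊆ f)) := by
      intro f hf
      rw [mem_filter] at hf
      have h2 := hWd P hP f hf.1 hf.2
      rw [Finset.not_disjoint_iff] at h2
      obtain ⟨w, hw, hwW⟩ := h2
      rw [mem_sdiff] at hw
      rw [mem_biUnion]
      refine ⟨w, mem_sdiff.2 ⟨hwW, hw.2⟩, mem_filter.2 ⟨hf.1, insert_subset hw.1 ?_⟩⟩
      rw [← hf.2]
      exact inter_subset_left
    refine (card_le_card h1).trans ?_
    refine (card_biUnion_le_card_mul _ _ ((k * s) ^ (k - 1 - P.card)) ?_).trans ?_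
    · intro w hw
      rw [mem_sdiff] at hw
      have hwP : w ∉ P := fun hh => hw.2 (hPA hh)
      exact h.degb (k - 1 - P.card) (insert w P) (by
        rw [card_insert_of_notMem hwP]
        omega)
    · exact Nat.mul_le_mul_right _ ((card_le_card sdiff_subset).trans (hWc P hP))
  have h2 : F.filter (fun f => ¬ Heavy F (AA pt) K (f ∩ AA pt)) ⊆
      (range k).biUnion (fun p => ((powersetCard p (AA pt)).filter
        (fun P => ¬ Heavy F (AA pt) K P)).biUnion
          (fun P => F.filter (fun f => f ∩ AA pt = P))) := by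
    intro f hf
    rw [mem_filter] at hf
    have hlt : (f ∩ AA pt).card < k := by
      have h3 : (f ∩ AA pt).card ≤ k :=
        (card_le_card inter_subset_left).trans_eq (h.unif f hf.1)
      rcases Nat.lt_or_ge (f ∩ AA pt).card k with h4 | h4
      · exact h4
      · exfalso
        have h5 : f ∩ AA pt = f := by
          apply Finset.eq_of_subset_of_card_le inter_subset_left
          rw [h.unif f hf.1]
          exact h4
        have h6 : f \ AA pt = ∅ := by
          rw [sdiff_eq_empty_iff_subset]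
          rw [← h5]
          exact inter_subset_right
        apply hWd _ hf.2 f hf.1 rfl
        rw [h6]
        exact disjoint_empty_left _
    rw [mem_biUnion]
    refine ⟨(f ∩ AA pt).card, mem_range.2 hlt, ?_⟩
    rw [mem_biUnion]
    exact ⟨f ∩ AA pt, mem_filter.2 ⟨mem_powersetCard.2 ⟨inter_subset_right, rfl⟩, hf.2⟩,
      mem_filter.2 ⟨hf.1, rfl⟩⟩
  refine (card_le_card h2).trans ?_
  refine (card_biUnion_le_card_mul _ _ (K * (k * s) ^ (k - 1)) ?_).trans ?_
  · intro p hp
    rw [mem_range] at hp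
    refine (card_biUnion_le_card_mul _ _ (K * (k * s) ^ (k - 1 - p)) ?_).trans ?_
    · intro P hP
      rw [mem_filter, mem_powersetCard] at hP
      have := hclass P hP.2 hP.1.1 (by rw [hP.1.2]; exact hp)
      rwa [hP.1.2] at this
    · have h3 : ((powersetCard p (AA pt)).filter (fun P => ¬ Heavy F (AA pt) K P)).card ≤
          (k * s) ^ p := by
        refine (card_filter_le _ _).trans ?_
        rw [card_powersetCard, card_AA h, mul_comm]
        exact Nat.choose_le_pow _ _
      refine (Nat.mul_le_mul_right _ h3).trans ?_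
      have h4 : (k * s) ^ (k - 1) = (k * s) ^ p * (k * s) ^ (k - 1 - p) := by
        rw [← pow_add]
        congr 1
        omega
      rw [h4]
      apply le_of_eq
      ring
  · rw [card_range]

open Classical in
/-- Members with two points in the same line. -/
lemma bound_three (h : Base F k s pt) :
    (F.filter (fun f => ∃ i c c', c ≠ c' ∧ pt (i, c) ∈ f ∧ pt (i, c') ∈ f)).card ≤
      k * (k * s) ^ (k - 1) := by
  have hk := h.kpos
  have h1 : F.filter (fun f => ∃ i c c', c ≠ c' ∧ pt (i, c) ∈ f ∧ pt (i, c') ∈ f) ⊆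
      ((univ : Finset (Fin s × Fin k × Fin k)).filter (fun y => y.2.1 ≠ y.2.2)).biUnion
        (fun y => F.filter (fun f => {pt (y.1, y.2.1), pt (y.1, y.2.2)} ⊆ f)) := by
    intro f hf
    rw [mem_filter] at hf
    obtain ⟨hf, i, c, c', hne, hc, hc'⟩ := hf
    rw [mem_biUnion]
    refine ⟨(i, c, c'), mem_filter.2 ⟨mem_univ _, hne⟩, mem_filter.2 ⟨hf, ?_⟩⟩
    intro x hx
    rw [mem_insert, mem_singleton] at hx
    rcases hx with rfl | rfl
    · exact hc
    · exact hc'
  refine (card_le_card h1).trans ?_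
  refine (card_biUnion_le_card_mul _ _ ((k * s) ^ (k - 2)) ?_).trans ?_
  · intro y hy
    have hne : y.2.1 ≠ y.2.2 := (mem_filter.1 hy).2
    apply h.degb (k - 2)
    rw [card_pair]
    · omega
    · intro hp
      exact hne (congrArg Prod.snd (h.inj hp))
  · refine (Nat.mul_le_mul_right _ ((card_filter_le _ _))).trans ?_
    rw [card_univ, Fintype.card_prod, Fintype.card_prod, Fintype.card_fin, Fintype.card_fin]
    have h4 : (k * s) ^ (k - 1) = (k * s) ^ (k - 2) * (k * s) := by
      rw [← pow_succ]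
      congr 1
      omega
    rw [h4]
    apply le_of_eq
    ring

open Classical in
/-- The minimal heavy sets with `q` points. -/
noncomputable def MM (F : Finset (Finset α)) (pt : Fin s × Fin k → α) (K q : ℕ) :
    Finset (Finset α) :=
  (univ.filter (fun x : Fin q → Fin s × Fin k => Mini F pt K x)).image (TT pt)

lemma TT_comp {q : ℕ} (x : Fin q → Fin s × Fin k) (σ : Equiv.Perm (Fin q)) :
    TT pt (x ∘ σ) = TT pt x := by
  ext v
  rw [TT, TT, mem_image, mem_image]
  constructor
  · rintro ⟨j, _, rfl⟩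
    exact ⟨σ j, mem_univ _, rfl⟩
  · rintro ⟨j, _, rfl⟩
    refine ⟨σ.symm j, mem_univ _, ?_⟩
    rw [Function.comp_apply, Equiv.apply_symm_apply]

/-- Each minimal heavy set comes from `q!` sequences. -/
lemma MM_card (q : ℕ) : q.factorial * (MM F pt K q).card ≤ YY F pt K q := by
  classical
  rw [MM, YY]
  apply Finset.mul_card_image_le_card
  intro P hP
  rw [mem_image] at hP
  obtain ⟨x, hx, rfl⟩ := hP
  have hx' : Mini F pt K x := (mem_filter.1 hx).2
  have hxinj : Function.Injective x := by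
    intro i j hij
    exact hx'.1 (congrArg Prod.fst hij)
  have h1 : (univ.image (fun σ : Equiv.Perm (Fin q) => x ∘ σ)).card = q.factorial := by
    rw [card_image_of_injective, card_univ, Fintype.card_perm, Fintype.card_fin]
    intro σ σ' hσ
    ext j
    have := congrFun hσ j
    exact congrArg _ (hxinj this)
  rw [← h1]
  apply card_le_card
  intro y hy
  rw [mem_image] at hy
  obtain ⟨σ, _, rfl⟩ := hy
  refine mem_filter.2 ⟨mem_filter.2 ⟨mem_univ _, ?_⟩, TT_comp x σ⟩
  refine ⟨?_, fun j => hx'.2.1 (σ j), ?_, ?_⟩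
  · intro i j hij
    exact σ.injective (hx'.1 hij)
  · rw [TT_comp]
    exact hx'.2.2.1
  · rw [TT_comp]
    exact hx'.2.2.2

open Classical in
/-- The remaining members. -/
lemma bound_four (h : Base F k s pt) :
    (F.filter (fun f => (¬ ∃ z, Rich F pt K z ∧ pt z ∈ f) ∧ Heavy F (AA pt) K (f ∩ AA pt) ∧
      ¬ ∃ i c c', c ≠ c' ∧ pt (i, c) ∈ f ∧ pt (i, c') ∈ f)).card ≤
      ∑ q ∈ Icc 2 k, (MM F pt K q).card * (k * s) ^ (k - q) := by
  have hk := h.kpos
  have h1 : F.filter (fun f => (¬ ∃ z, Rich F pt K z ∧ pt z ∈ f) ∧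
      Heavy F (AA pt) K (f ∩ AA pt) ∧
      ¬ ∃ i c c', c ≠ c' ∧ pt (i, c) ∈ f ∧ pt (i, c') ∈ f) ⊆
      (Icc 2 k).biUnion (fun q => (MM F pt K q).biUnion
        (fun P => F.filter (fun f => P ⊆ f ∧ P.card = q))) := by
    intro f hf
    rw [mem_filter] at hf
    obtain ⟨hf, hrich, hheavy, hline⟩ := hf
    -- a heavy subset with the least number of points
    obtain ⟨P, hP, hmin⟩ := Finset.exists_min_image
      ((f ∩ AA pt).powerset.filter (fun P => Heavy F (AA pt) K P)) Finset.card
      ⟨f ∩ AA pt, mem_filter.2 ⟨mem_powerset.2 Subset.rfl, hheavy⟩⟩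
    rw [mem_filter, mem_powerset] at hP
    obtain ⟨hPf, hPh⟩ := hP
    have hPA : P ⊆ AA pt := hPf.trans inter_subset_right
    have hPff : P ⊆ f := hPf.trans inter_subset_left
    have hPk : P.card ≤ k := by
      rw [← h.unif f hf]
      exact card_le_card hPff
    have hex : ∀ v ∈ P, ∃ z, pt z = v := by
      intro v hv
      have := hPA hv
      rw [AA, mem_image] at this
      obtain ⟨z, _, hz⟩ := this
      exact ⟨z, hz⟩
    choose u hu using hex
    let e : Fin P.card ≃ P := (P.equivFin).symm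
    let x : Fin P.card → Fin s × Fin k := fun j => u (e j : α) (e j).2
    have hx : ∀ j, pt (x j) = (e j : α) := fun j => hu _ (e j).2
    have hTx : TT pt x = P := by
      ext v
      rw [TT, mem_image]
      constructor
      · rintro ⟨j, _, rfl⟩
        rw [hx]
        exact (e j).2
      · intro hv
        refine ⟨e.symm ⟨v, hv⟩, mem_univ _, ?_⟩
        rw [hx, Equiv.apply_symm_apply]
    have hmini : Mini F pt K x := by
      refine ⟨?_, ?_, ?_, ?_⟩
      · intro i j hij
        by_contra hne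
        apply hline
        refine ⟨(x i).1, (x i).2, (x j).2, ?_, ?_, ?_⟩
        · intro h2
          apply hne
          have h3 : x i = x j := Prod.ext hij h2
          have h4 : (e i : α) = e j := by rw [← hx, ← hx, h3]
          exact e.injective (Subtype.ext h4)
        · have : pt (x i) ∈ f := by
            rw [hx]
            exact hPff (e i).2
          exact this
        · have : pt (x j) ∈ f := by
            rw [hx]
            exact hPff (e j).2
          have h5 : ((x i).1, (x j).2) = x j := Prod.ext hij rfl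
          rw [h5]
          exact this
      · intro j hj
        apply hrich
        refine ⟨x j, hj, ?_⟩
        rw [hx]
        exact hPff (e j).2
      · rw [hTx]
        exact hPh
      · intro Q hQ hQh
        rw [hTx] at hQ
        have h2 := hmin Q (mem_filter.2 ⟨mem_powerset.2 (hQ.subset.trans hPf), hQh⟩)
        have h3 := card_lt_card hQ
        omega
    have hP2 : 2 ≤ P.card := by
      have h2 : P.card ≠ 0 := by
        intro h0
        rw [card_eq_zero] at h0
        have h3 := Heavy.nonempty h hPh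
        rw [h0] at h3
        exact absurd h3 Finset.not_nonempty_empty
      have h3 : P.card ≠ 1 := by
        intro h0
        rw [card_eq_one] at h0
        obtain ⟨v, hv⟩ := h0
        have hvP : v ∈ P := by rw [hv]; exact mem_singleton_self _
        apply hrich
        refine ⟨u v hvP, ?_, ?_⟩
        · rw [Rich, hu v hvP, ← hv]
          exact hPh
        · rw [hu v hvP]
          exact hPff hvP
      omega
    rw [mem_biUnion]
    refine ⟨P.card, mem_Icc.2 ⟨hP2, hPk⟩, ?_⟩
    rw [mem_biUnion]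
    refine ⟨P, ?_, mem_filter.2 ⟨hf, hPff, rfl⟩⟩
    rw [MM, mem_image]
    exact ⟨x, mem_filter.2 ⟨mem_univ _, hmini⟩, hTx⟩
  refine (card_le_card h1).trans ?_
  refine card_biUnion_le.trans ?_
  apply Finset.sum_le_sum
  intro q hq
  rw [mem_Icc] at hq
  apply card_biUnion_le_card_mul
  intro P _
  by_cases hPq : P.card = q
  · refine le_trans (card_le_card ?_) (h.degb (k - q) P (by omega))
    intro f hf
    rw [mem_filter] at hf ⊢
    exact ⟨hf.1, hf.2.1⟩
  · rw [Finset.filter_false_of_mem, card_empty]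
    · exact Nat.zero_le _
    · intro f _ hf
      exact hPq hf.2

lemma total_bound (h : Base F k s pt) (hs : 1 ≤ s) :
    (F.card : ℝ) ≤ (bb k * s + (3 * (k : ℝ) ^ 3 + k)) * ((k : ℝ) * s) ^ (k - 1) := by
  classical
  have hk := h.kpos
  set K := 2 * k * k with hK
  have hKk : 2 * k ≤ K := by
    rw [hK]
    nlinarith
  have h1 := bound_one (K := K) h
  have h2 := bound_two (K := K) h
  have h3 := bound_three h
  have h4 := bound_four (K := K) h
  have hcov : F ⊆ F.filter (fun f => ∃ z, Rich F pt K z ∧ pt z ∈ f) ∪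
      (F.filter (fun f => ¬ Heavy F (AA pt) K (f ∩ AA pt)) ∪
      (F.filter (fun f => ∃ i c c', c ≠ c' ∧ pt (i, c) ∈ f ∧ pt (i, c') ∈ f) ∪
      F.filter (fun f => (¬ ∃ z, Rich F pt K z ∧ pt z ∈ f) ∧ Heavy F (AA pt) K (f ∩ AA pt) ∧
        ¬ ∃ i c c', c ≠ c' ∧ pt (i, c) ∈ f ∧ pt (i, c') ∈ f))) := by
    intro f hf
    by_cases c1 : ∃ z, Rich F pt K z ∧ pt z ∈ f
    · exact mem_union_left _ (mem_filter.2 ⟨hf, c1⟩)
    · by_cases c2 : Heavy F (AA pt) K (f ∩ AA pt)
      · by_cases c3 : ∃ i c c', c ≠ c' ∧ pt (i, c) ∈ f ∧ pt (i, c') ∈ f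
        · exact mem_union_right _ (mem_union_right _ (mem_union_left _ (mem_filter.2 ⟨hf, c3⟩)))
        · exact mem_union_right _ (mem_union_right _ (mem_union_right _
            (mem_filter.2 ⟨hf, c1, c2, c3⟩)))
      · exact mem_union_right _ (mem_union_left _ (mem_filter.2 ⟨hf, c2⟩))
  have h5 := (card_le_card hcov).trans (card_union_le _ _)
  have h6 := card_union_le (F.filter (fun f => ¬ Heavy F (AA pt) K (f ∩ AA pt)))
    (F.filter (fun f => ∃ i c c', c ≠ c' ∧ pt (i, c) ∈ f ∧ pt (i, c') ∈ f) ∪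
      F.filter (fun f => (¬ ∃ z, Rich F pt K z ∧ pt z ∈ f) ∧ Heavy F (AA pt) K (f ∩ AA pt) ∧
        ¬ ∃ i c c', c ≠ c' ∧ pt (i, c) ∈ f ∧ pt (i, c') ∈ f))
  have h7 := card_union_le
    (F.filter (fun f => ∃ i c c', c ≠ c' ∧ pt (i, c) ∈ f ∧ pt (i, c') ∈ f))
    (F.filter (fun f => (¬ ∃ z, Rich F pt K z ∧ pt z ∈ f) ∧ Heavy F (AA pt) K (f ∩ AA pt) ∧
        ¬ ∃ i c c', c ≠ c' ∧ pt (i, c) ∈ f ∧ pt (i, c') ∈ f))
  have h8 : F.card ≤ RR F pt K * (k * s) ^ (k - 1) + (k * (K * (k * s) ^ (k - 1)) +
      (k * (k * s) ^ (k - 1) + ∑ q ∈ Icc 2 k, (MM F pt K q).card * (k * s) ^ (k - q))) := by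
    omega
  have h9 : (F.card : ℝ) ≤ (RR F pt K : ℝ) * ((k : ℝ) * s) ^ (k - 1) +
      ((k : ℝ) * ((K : ℝ) * ((k : ℝ) * s) ^ (k - 1)) + ((k : ℝ) * ((k : ℝ) * s) ^ (k - 1) +
        ∑ q ∈ Icc 2 k, ((MM F pt K q).card : ℝ) * ((k : ℝ) * s) ^ (k - q))) := by
    exact_mod_cast h8
  have h10 : ∑ q ∈ Icc 2 k, ((MM F pt K q).card : ℝ) * ((k : ℝ) * s) ^ (k - q) ≤
      ∑ q ∈ Icc 2 k, (YY F pt K q : ℝ) / (q.factorial : ℝ) * ((k : ℝ) * s) ^ (k - q) := by
    apply Finset.sum_le_sum
    intro q _
    apply mul_le_mul_of_nonneg_right _ (by positivity)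
    rw [le_div_iff₀ (by exact_mod_cast Nat.factorial_pos q), mul_comm]
    exact_mod_cast MM_card q
  have hRR : RR F pt K ≤ s := h.RR_le hKk
  have h11 := sum_bound k s (RR F pt K) (fun q => (XX F pt K q : ℝ)) (fun q => (YY F pt K q : ℝ))
    hk hs hRR (fun q => Nat.cast_nonneg _)
    (by
      rw [h.XX_one]
      norm_num)
    (by
      intro q _ hq
      have h12 := h.XX_le (K := K) le_rfl q hq
      have h13 : ((XX F pt K q : ℕ) : ℝ) ≤
          ((q * ((s - RR F pt K) * (s * k) ^ (q - 1)) : ℕ) : ℝ) := by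
        exact_mod_cast h12
      rw [Nat.cast_mul, Nat.cast_mul, Nat.cast_sub hRR, Nat.cast_pow, Nat.cast_mul] at h13
      exact h13)
    (by
      intro q
      have h12 := h.XX_rec (K := K) q
      have h13 : (((XX F pt K q : ℤ) * (s * k - RR F pt K - q * k) + YY F pt K (q + 1) : ℤ) : ℝ) ≤
          ((XX F pt K (q + 1) : ℤ) : ℝ) := by
        exact_mod_cast h12
      push_cast at h13
      exact h13)
  have h14 : 0 ≤ ((k : ℝ) * s) ^ (k - 1) := by positivity
  have hk2 : (2 : ℝ) ≤ k := by exact_mod_cast hk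
  have hKr : (K : ℝ) = 2 * k * k := by
    rw [hK]
    push_cast
    ring
  have h15 : (F.card : ℝ) ≤ ((RR F pt K : ℝ) + (k * (K : ℝ) + (k +
      ((s : ℝ) * bb k - RR F pt K + (k : ℝ) ^ 3)))) * ((k : ℝ) * s) ^ (k - 1) := by
    calc (F.card : ℝ) ≤ _ := h9
      _ ≤ (RR F pt K : ℝ) * ((k : ℝ) * s) ^ (k - 1) +
      ((k : ℝ) * ((K : ℝ) * ((k : ℝ) * s) ^ (k - 1)) + ((k : ℝ) * ((k : ℝ) * s) ^ (k - 1) +
        ((s : ℝ) * bb k - RR F pt K + (k : ℝ) ^ 3) * ((k : ℝ) * s) ^ (k - 1))) := by
          have := h10.trans h11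
          linarith
      _ = _ := by ring
  refine h15.trans ?_
  apply mul_le_mul_of_nonneg_right _ h14
  rw [hKr]
  apply le_of_eq
  ring

end bound

/-- The upper bound for resilient families. -/
theorem card_le_of_resilient {α : Type*} {F : Finset (Finset α)} {k : ℕ} (hk : 2 ≤ k)
    (hu : ∀ f ∈ F, f.card = k) (hres : Resilient (k - 1) F) (hs : 1 ≤ nu F) :
    (F.card : ℝ) ≤ (bb k * nu F + (3 * (k : ℝ) ^ 3 + k)) * ((k : ℝ) * nu F) ^ (k - 1) := by
  classical
  obtain ⟨pt, hb⟩ := exists_base hk hu hres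
  exact total_bound hb hs

end Pool.Agent.H49.Res
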