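import Pool.Agent.H49.Res.Heavy

set_option autoImplicit false
set_option linter.unusedSectionVars false

/-!
Counting transversals that contain a heavy set.
-/

namespace Pool.Agent.H49.Res

open Finset

section count

variable {α : Type*} [DecidableEq α]
variable {s k q : ℕ} (F : Finset (Finset α)) (pt : Fin s × Fin k → α) (K : ℕ)

/-- Heavy points. -/
def Rich (z : Fin s × Fin k) : Prop := Heavy F (AA pt) K {pt z}

/-- The set of points of a sequence. -/
def TT (x : Fin q → Fin s × Fin k) : Finset α := univ.image (fun j => pt (x j))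

/-- Sequences of points in different lines, none of them heavy, that contain a heavy set. -/
def Good (x : Fin q → Fin s × Fin k) : Prop :=
  Function.Injective (fun j => (x j).1) ∧ (∀ j, ¬ Rich F pt K (x j)) ∧
    ∃ P ⊆ TT pt x, Heavy F (AA pt) K P

/-- Sequences of points in different lines, none of them heavy, that form a minimal heavy set. -/
def Mini (x : Fin q → Fin s × Fin k) : Prop :=
  Function.Injective (fun j => (x j).1) ∧ (∀ j, ¬ Rich F pt K (x j)) ∧
    Heavy F (AA pt) K (TT pt x) ∧ ∀ P ⊂ TT pt x, ¬ Heavy F (AA pt) K P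

variable {F pt K}

lemma TT_subset (x : Fin q → Fin s × Fin k) :
    TT pt x ⊆ (univ.image (fun j => (x j).1)).biUnion (line pt) := by
  intro v hv
  rw [TT, mem_image] at hv
  obtain ⟨j, _, rfl⟩ := hv
  rw [mem_biUnion]
  refine ⟨(x j).1, mem_image_of_mem _ (mem_univ _), ?_⟩
  rw [line, mem_image]
  exact ⟨(x j).2, mem_univ _, rfl⟩

/-- Shift of a sequence inside the lines. -/
def shift [NeZero k] (t : Fin k) (x : Fin q → Fin s × Fin k) : Fin q → Fin s × Fin k :=
  fun j => ((x j).1, (x j).2 + t)

lemma shift_add [NeZero k] (t t' : Fin k) (x : Fin q → Fin s × Fin k) :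
    shift t (shift t' x) = shift (t' + t) x := by
  funext j
  simp only [shift, add_assoc]

lemma shift_zero [NeZero k] (x : Fin q → Fin s × Fin k) : shift 0 x = x := by
  funext j
  simp only [shift, add_zero]

/-- Two different heavy points lie in different lines. -/
lemma Base.rich_inj (h : Base F k s pt) (hK : 2 * k ≤ K) {z z' : Fin s × Fin k}
    (hz : Rich F pt K z) (hz' : Rich F pt K z') (h1 : z.1 = z'.1) : z = z' := by
  by_contra hne
  have hpne : pt z ≠ pt z' := fun hp => hne (h.inj hp)
  have hmemline : ∀ w : Fin s × Fin k, w.1 = z.1 → pt w ∈ line pt z.1 := by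
    rintro ⟨i, c⟩ hw
    rw [line, mem_image]
    refine ⟨c, mem_univ _, ?_⟩
    rw [← hw]
  have h2 := h.augment (K := K) {z.1} {{pt z}, {pt z'}}
    (by
      intro P hP
      rw [mem_insert, mem_singleton] at hP
      rcases hP with rfl | rfl
      · exact hz
      · exact hz')
    (by
      intro a ha b hb hab
      rw [mem_insert, mem_singleton] at ha hb
      rcases ha with rfl | rfl
      · rcases hb with rfl | rfl
        · exact absurd rfl hab
        · rw [disjoint_singleton]
          exact hpne
      · rcases hb with rfl | rfl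
        · rw [disjoint_singleton]
          exact hpne.symm
        · exact absurd rfl hab)
    (by
      intro P hP
      rw [singleton_biUnion]
      rw [mem_insert, mem_singleton] at hP
      rcases hP with rfl | rfl
      · rw [singleton_subset_iff]
        exact hmemline z rfl
      · rw [singleton_subset_iff]
        exact hmemline z' h1.symm)
    (by
      refine le_trans (Nat.mul_le_mul_right k (card_le_two)) hK)
  rw [card_pair (fun hp => hpne (singleton_injective hp)), card_singleton] at h2
  omega

/-- The bound in one shift class. -/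
lemma Base.class_bound [NeZero k] (h : Base F k s pt) (hK : 2 * k * k ≤ K) (hq : q ≤ k)
    (x : Fin q → Fin s × Fin k) (hx : Function.Injective (fun j => (x j).1))
    (G : Finset (Fin k)) (hG : ∀ t ∈ G, Good F pt K (shift t x))
    (J : Finset (Fin q)) (hJ : ∀ j ∈ J, ∃ c, Rich F pt K ((x j).1, c)) :
    G.card + J.card ≤ q := by
  classical
  have hG' : ∀ t ∈ G, ∃ P ⊆ TT pt (shift t x), Heavy F (AA pt) K P := fun t ht => (hG t ht).2.2
  choose! P hPsub hPheavy using hG'
  choose! c hc using hJ
  have hTdisj : ∀ t t' : Fin k, t ≠ t' → Disjoint (TT pt (shift t x)) (TT pt (shift t' x)) := by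
    intro t t' htt
    rw [Finset.disjoint_left]
    intro v hv hv'
    rw [TT, mem_image] at hv hv'
    obtain ⟨j, _, rfl⟩ := hv
    obtain ⟨j', _, hj'⟩ := hv'
    have h1 := h.inj hj'
    have h2 : (x j').1 = (x j).1 := (Prod.ext_iff.1 h1).1
    have h3 : (x j').2 + t' = (x j).2 + t := (Prod.ext_iff.1 h1).2
    have h4 : j' = j := hx h2
    subst h4
    exact htt (add_left_cancel h3).symm
  have hsing : ∀ t ∈ G, ∀ j ∈ J, pt ((x j).1, c j) ∉ TT pt (shift t x) := by
    intro t ht j hj hmem
    rw [TT, mem_image] at hmem
    obtain ⟨j', _, hj'⟩ := hmem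
    apply (hG t ht).2.1 j'
    have h1 := h.inj hj'
    rw [h1]
    exact hc j hj
  have hPne : ∀ t ∈ G, (P t).Nonempty := fun t ht => Heavy.nonempty h (hPheavy t ht)
  have hdisj : Disjoint (G.image P) (J.image (fun j => ({pt ((x j).1, c j)} : Finset α))) := by
    rw [Finset.disjoint_left]
    intro a ha ha'
    rw [mem_image] at ha ha'
    obtain ⟨t, ht, rfl⟩ := ha
    obtain ⟨j, hj, hjP⟩ := ha'
    apply hsing t ht j hj
    apply hPsub t ht
    rw [← hjP]
    exact mem_singleton_self _
  have hPinj : Set.InjOn P G := by
    intro t ht t' ht' htt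
    by_contra hne
    obtain ⟨v, hv⟩ := hPne t ht
    exact (Finset.disjoint_left.1 (hTdisj t t' hne)) (hPsub t ht hv)
      (hPsub t' ht' (by rw [← htt]; exact hv))
  have hJinj : Set.InjOn (fun j => ({pt ((x j).1, c j)} : Finset α)) J := by
    intro j hj j' hj' hjj
    have h1 := h.inj (singleton_injective hjj)
    exact hx (Prod.ext_iff.1 h1).1
  have hcard : (G.image P ∪ J.image (fun j => ({pt ((x j).1, c j)} : Finset α))).card =
      G.card + J.card := by
    rw [card_union_of_disjoint hdisj, card_image_of_injOn hPinj, card_image_of_injOn hJinj]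
  have hGk : G.card ≤ k := by
    have := card_le_univ G
    rwa [Fintype.card_fin] at this
  have hJk : J.card ≤ k := by
    have := card_le_univ J
    rw [Fintype.card_fin] at this
    omega
  have h2 := h.augment (K := K) (univ.image (fun j => (x j).1))
    (G.image P ∪ J.image (fun j => ({pt ((x j).1, c j)} : Finset α)))
    (by
      intro Q hQ
      rw [mem_union, mem_image, mem_image] at hQ
      rcases hQ with ⟨t, ht, rfl⟩ | ⟨j, hj, rfl⟩
      · exact hPheavy t ht
      · exact hc j hj)
    (by
      intro a ha b hb hab
      rw [mem_union, mem_image, mem_image] at ha hb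
      rcases ha with ⟨t, ht, rfl⟩ | ⟨j, hj, rfl⟩
      · rcases hb with ⟨t', ht', rfl⟩ | ⟨j', hj', rfl⟩
        · have hne : t ≠ t' := fun htt => hab (by rw [htt])
          exact Disjoint.mono (hPsub t ht) (hPsub t' ht') (hTdisj t t' hne)
        · rw [disjoint_singleton_right]
          intro hmem
          exact hsing t ht j' hj' (hPsub t ht hmem)
      · rcases hb with ⟨t', ht', rfl⟩ | ⟨j', hj', rfl⟩
        · rw [disjoint_singleton_left]
          intro hmem
          exact hsing t' ht' j hj (hPsub t' ht' hmem)
        · rw [disjoint_singleton]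
          intro hpp
          exact hab (by rw [hpp]))
    (by
      intro Q hQ
      rw [mem_union, mem_image, mem_image] at hQ
      rcases hQ with ⟨t, ht, rfl⟩ | ⟨j, hj, rfl⟩
      · exact (hPsub t ht).trans (TT_subset (shift t x))
      · rw [singleton_subset_iff, mem_biUnion]
        refine ⟨(x j).1, mem_image_of_mem _ (mem_univ _), ?_⟩
        rw [line, mem_image]
        exact ⟨c j, mem_univ _, rfl⟩)
    (by
      rw [hcard]
      refine le_trans (Nat.mul_le_mul_right k (by omega : G.card + J.card ≤ 2 * k)) hK)
  rw [hcard, card_image_of_injective _ hx, card_univ, Fintype.card_fin] at h2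
  exact h2

end count

end Pool.Agent.H49.Res
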