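import Mathlib

set_option autoImplicit false

/-!
Matching number and resilient families of finite sets.
-/

namespace Pool.Agent.H49.Res

/-- The members of `M` are pairwise disjoint. -/
def IsMatching {α : Type*} (M : Finset (Finset α)) : Prop :=
  ∀ a ∈ M, ∀ b ∈ M, a ≠ b → Disjoint a b

open Classical in
/-- The largest number of pairwise disjoint members of `F`. -/
noncomputable def nu {α : Type*} (F : Finset (Finset α)) : ℕ :=
  (F.powerset.filter IsMatching).sup Finset.card

open Classical in
/-- Deleting any at most `t` vertices does not lower the matching number. -/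
def Resilient {α : Type*} (t : ℕ) (F : Finset (Finset α)) : Prop :=
  ∀ T : Finset α, T.card ≤ t → nu (F.filter (fun f => Disjoint f T)) = nu F

section basic

variable {α : Type*} {F M : Finset (Finset α)}

lemma card_le_nu (hM : M ⊆ F) (h : IsMatching M) : M.card ≤ nu F := by
  classical
  rw [nu]
  apply Finset.le_sup (f := Finset.card)
  rw [Finset.mem_filter, Finset.mem_powerset]
  exact ⟨hM, h⟩

lemma exists_matching (F : Finset (Finset α)) : ∃ M ⊆ F, IsMatching M ∧ M.card = nu F := by
  classical
  have hne : (F.powerset.filter IsMatching).Nonempty :=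
    ⟨∅, by
      rw [Finset.mem_filter, Finset.mem_powerset]
      exact ⟨Finset.empty_subset _, fun a ha => absurd ha (Finset.notMem_empty a)⟩⟩
  obtain ⟨M, hM, hsup⟩ := Finset.exists_mem_eq_sup _ hne Finset.card
  rw [Finset.mem_filter, Finset.mem_powerset] at hM
  exact ⟨M, hM.1, hM.2, by rw [nu]; convert hsup.symm⟩

/-- A maximum matching that avoids a small set. -/
lemma exists_avoiding {t : ℕ} (h : Resilient t F) {T : Finset α} (hT : T.card ≤ t) :
    ∃ M ⊆ F, IsMatching M ∧ M.card = nu F ∧ ∀ e ∈ M, Disjoint e T := by
  classical
  obtain ⟨M, hM, hm, hc⟩ := exists_matching (F.filter (fun f => Disjoint f T))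
  refine ⟨M, fun e he => (Finset.mem_filter.1 (hM he)).1, hm, ?_, ?_⟩
  · rw [hc]
    exact h T hT
  · intro e he
    exact (Finset.mem_filter.1 (hM he)).2

lemma matching_insert [DecidableEq (Finset α)] {f : Finset α} (hM : IsMatching M)
    (hf : ∀ e ∈ M, Disjoint f e) : IsMatching (insert f M) := by
  intro a ha b hb hab
  rw [Finset.mem_insert] at ha hb
  rcases ha with rfl | ha
  · rcases hb with rfl | hb
    · exact absurd rfl hab
    · exact hf b hb
  · rcases hb with rfl | hb
    · exact (hf a ha).symm
    · exact hM a ha b hb hab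

/-- Every member meets every maximum matching. -/
lemma meets {f : Finset α} (hM : M ⊆ F) (hm : IsMatching M) (hc : M.card = nu F) (hf : f ∈ F)
    (hne : f.Nonempty) : ∃ e ∈ M, ¬ Disjoint f e := by
  classical
  by_contra hcon
  push Not at hcon
  have hfM : f ∉ M := by
    intro h
    have := hcon f h
    rw [disjoint_self] at this
    exact hne.ne_empty this
  have h1 := card_le_nu (F := F) (M := insert f M) (Finset.insert_subset hf hM)
    (matching_insert hm hcon)
  rw [Finset.card_insert_of_notMem hfM] at h1
  omega

end basic

section degree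

variable {α : Type*} [DecidableEq α]

/-- The number of members of `F` that contain `T`. -/
def deg (F : Finset (Finset α)) (T : Finset α) : ℕ := (F.filter (fun f => T ⊆ f)).card

variable {F : Finset (Finset α)} {k : ℕ}

/-- Lovász's bound on degrees. -/
lemma deg_le (hk : ∀ f ∈ F, f.card = k) (hres : Resilient (k - 1) F) :
    ∀ (d : ℕ) (T : Finset α), T.card + d = k → deg F T ≤ (k * nu F) ^ d := by
  intro d
  induction d with
  | zero =>
    intro T hT
    rw [pow_zero, deg, Finset.card_le_one]
    intro a ha b hb
    rw [Finset.mem_filter] at ha hb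
    have h1 := Finset.eq_of_subset_of_card_le ha.2 (by rw [hk a ha.1]; omega)
    have h2 := Finset.eq_of_subset_of_card_le hb.2 (by rw [hk b hb.1]; omega)
    rw [← h1, ← h2]
  | succ d ih =>
    intro T hT
    obtain ⟨M, hM, hm, hc, hav⟩ := exists_avoiding hres (T := T) (by omega)
    have hVM : (M.biUnion id).card ≤ k * nu F := by
      rw [← hc, mul_comm]
      apply Finset.card_biUnion_le_card_mul
      intro e he
      rw [id, hk e (hM he)]
    have hsub : F.filter (fun f => T ⊆ f) ⊆
        (M.biUnion id).biUnion (fun x => if x ∈ T then ∅ else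
          F.filter (fun f => insert x T ⊆ f)) := by
      intro f hf
      rw [Finset.mem_filter] at hf
      have hfne : f.Nonempty := by
        rw [← Finset.card_pos, hk f hf.1]
        omega
      obtain ⟨e, he, hfe⟩ := meets hM hm hc hf.1 hfne
      rw [Finset.not_disjoint_iff] at hfe
      obtain ⟨x, hxf, hxe⟩ := hfe
      have hxT : x ∉ T := by
        intro h
        exact (Finset.disjoint_left.1 (hav e he)) hxe h
      rw [Finset.mem_biUnion]
      refine ⟨x, Finset.mem_biUnion.2 ⟨e, he, hxe⟩, ?_⟩
      rw [if_neg hxT, Finset.mem_filter]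
      exact ⟨hf.1, Finset.insert_subset hxf hf.2⟩
    rw [deg]
    refine (Finset.card_le_card hsub).trans ?_
    refine (Finset.card_biUnion_le_card_mul _ _ ((k * nu F) ^ d) ?_).trans ?_
    · intro x _
      by_cases hxT : x ∈ T
      · rw [if_pos hxT, Finset.card_empty]
        exact Nat.zero_le _
      · rw [if_neg hxT]
        exact ih (insert x T) (by rw [Finset.card_insert_of_notMem hxT]; omega)
    · rw [pow_succ, mul_comm ((k * nu F) ^ d)]
      exact Nat.mul_le_mul_right _ hVM

end degree

end Pool.Agent.H49.Res
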