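import Pool.Agent.H49.Res.Defs

set_option autoImplicit false
set_option linter.unusedSectionVars false

/-!
Resilient families whose fractional matchings all have weight less than `nu F + 1`.
-/

namespace Pool.Agent.H49.Res

open Finset

variable {α : Type*} [DecidableEq α]

/-- Fractional matchings of `F`, as functions on the members of `F`. -/
def FM (F : Finset (Finset α)) : Set (F → ℝ) :=
  {w | (∀ f, 0 ≤ w f) ∧ ∀ v : α, ∑ f : F, (if v ∈ (f : Finset α) then w f else 0) ≤ 1}

lemma FM_le_one {F : Finset (Finset α)} (hne : ∀ f ∈ F, f.Nonempty) {w : F → ℝ} (hw : w ∈ FM F)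
    (f : F) : w f ≤ 1 := by
  obtain ⟨v, hv⟩ := hne f f.2
  refine le_trans ?_ (hw.2 v)
  have h1 : w f = (if v ∈ (f : Finset α) then w f else 0) := by rw [if_pos hv]
  rw [h1]
  apply Finset.single_le_sum (f := fun g : F => (if v ∈ (g : Finset α) then w g else 0))
  · intro g _
    by_cases hg : v ∈ (g : Finset α)
    · simp only [hg, if_true]
      exact hw.1 g
    · simp only [hg, if_false]
      exact le_rfl
  · exact mem_univ f

lemma FM_compact {F : Finset (Finset α)} (hne : ∀ f ∈ F, f.Nonempty) : IsCompact (FM F) := by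
  have h1 : IsCompact (Set.pi Set.univ (fun _ : F => Set.Icc (0 : ℝ) 1)) :=
    isCompact_univ_pi (fun _ => isCompact_Icc)
  apply h1.of_isClosed_subset
  · have h2 : FM F = (⋂ f : F, {w : F → ℝ | 0 ≤ w f}) ∩
        ⋂ v : α, {w : F → ℝ | ∑ f : F, (if v ∈ (f : Finset α) then w f else 0) ≤ 1} := by
      ext w
      rw [FM, Set.mem_ofPred_eq, Set.mem_inter_iff, Set.mem_iInter, Set.mem_iInter]
      exact Iff.rfl
    rw [h2]
    apply IsClosed.inter
    · apply isClosed_iInter
      intro f
      exact isClosed_le continuous_const (continuous_apply f)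
    · apply isClosed_iInter
      intro v
      apply isClosed_le _ continuous_const
      apply continuous_finsetSum
      intro f _
      by_cases hf : v ∈ (f : Finset α)
      · simp only [hf, if_true]
        exact continuous_apply f
      · simp only [hf, if_false]
        exact continuous_const
  · intro w hw f _
    exact ⟨hw.1 f, FM_le_one hne hw f⟩

lemma exists_opt {F : Finset (Finset α)} (hne : ∀ f ∈ F, f.Nonempty) :
    ∃ w ∈ FM F, ∀ w' ∈ FM F, ∑ f : F, w' f ≤ ∑ f : F, w f := by
  have h0 : (FM F).Nonempty := ⟨fun _ => 0, fun _ => le_rfl, fun v => by simp⟩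
  have hc : ContinuousOn (fun w : F → ℝ => ∑ f : F, w f) (FM F) := by
    apply Continuous.continuousOn
    apply continuous_finsetSum
    intro f _
    exact continuous_apply f
  obtain ⟨w, hw, hmax⟩ := (FM_compact hne).exists_isMaxOn h0 hc
  exact ⟨w, hw, fun w' hw' => hmax hw'⟩

/-- Each vertex of the family is saturated. -/
lemma saturated {F : Finset (Finset α)} {k : ℕ} (hk : 1 ≤ k) (hu : ∀ f ∈ F, f.card = k)
    (hres : Resilient (k - 1) F)
    (hfrac : ∀ w ∈ FM F, ∑ f : F, w f < (nu F : ℝ) + 1)
    {w : F → ℝ} (hw : w ∈ FM F) (hmax : ∀ w' ∈ FM F, ∑ f : F, w' f ≤ ∑ f : F, w f)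
    {e : Finset α} (he : e ∈ F) {v : α} (hv : v ∈ e) :
    ∑ f : F, (if v ∈ (f : Finset α) then w f else 0) = 1 := by
  by_contra hcon
  have hlt : ∑ f : F, (if v ∈ (f : Finset α) then w f else 0) < 1 :=
    lt_of_le_of_ne (hw.2 v) hcon
  obtain ⟨M, hM, hm, hc, hav⟩ := exists_avoiding hres (T := e.erase v) (by
    rw [card_erase_of_mem hv, hu e he])
  set δ : ℝ := 1 - ∑ f : F, (if v ∈ (f : Finset α) then w f else 0) with hδ
  have hδ0 : 0 < δ := by rw [hδ]; linarith
  have hδ1 : δ ≤ 1 := by
    rw [hδ]
    have : 0 ≤ ∑ f : F, (if v ∈ (f : Finset α) then w f else 0) := by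
      apply Finset.sum_nonneg
      intro f _
      by_cases hf : v ∈ (f : Finset α)
      · simp only [hf, if_true]
        exact hw.1 f
      · simp only [hf, if_false]
        exact le_rfl
    linarith
  set ε : ℝ := δ / 2 with hε
  have hε0 : 0 < ε := by rw [hε]; linarith
  have hε1 : ε ≤ 1 / 2 := by rw [hε]; linarith
  -- the perturbation
  let z : F → ℝ := fun f => (if (f : Finset α) ∈ M then 1 else 0) +
    (if (f : Finset α) = e then 1 else 0)
  have hz0 : ∀ f, 0 ≤ z f := by
    intro f
    simp only [z]
    split_ifs <;> norm_num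
  -- the total of z
  have hzsum : ∑ f : F, z f = (nu F : ℝ) + 1 := by
    simp only [z]
    rw [Finset.sum_add_distrib]
    have e1 : ∑ f : F, (if (f : Finset α) ∈ M then (1 : ℝ) else 0) = nu F := by
      rw [Finset.sum_coe_sort F (fun f => if f ∈ M then (1 : ℝ) else 0), ← Finset.sum_filter,
        Finset.filter_mem_eq_inter, Finset.inter_eq_right.2 hM, Finset.sum_const, hc]
      simp
    have e2 : ∑ f : F, (if (f : Finset α) = e then (1 : ℝ) else 0) = 1 := by
      rw [Finset.sum_coe_sort F (fun f => if f = e then (1 : ℝ) else 0), Finset.sum_ite_eq',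
        if_pos he]
    rw [e1, e2]
  -- the load of a vertex
  have hload : ∀ u : α, ∑ f : F, (if u ∈ (f : Finset α) then z f else 0) =
      ((M.filter (fun f => u ∈ f)).card : ℝ) + (if u ∈ e then 1 else 0) := by
    intro u
    have e0 : ∀ f : F, (if u ∈ (f : Finset α) then z f else 0) =
        (if u ∈ (f : Finset α) then (if (f : Finset α) ∈ M then (1 : ℝ) else 0) else 0) +
        (if u ∈ (f : Finset α) then (if (f : Finset α) = e then (1 : ℝ) else 0) else 0) := by
      intro f
      by_cases hf : u ∈ (f : Finset α)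
      · simp only [hf, if_true, z]
      · simp only [hf, if_false, add_zero]
    rw [Finset.sum_congr rfl (fun f _ => e0 f), Finset.sum_add_distrib]
    congr 1
    · rw [Finset.sum_coe_sort F
        (fun f => if u ∈ f then (if f ∈ M then (1 : ℝ) else 0) else 0)]
      have e3 : M.filter (fun f => u ∈ f) = F.filter (fun f => u ∈ f ∧ f ∈ M) := by
        ext f
        rw [mem_filter, mem_filter]
        constructor
        · rintro ⟨h1, h2⟩
          exact ⟨hM h1, h2, h1⟩
        · rintro ⟨_, h2, h3⟩
          exact ⟨h3, h2⟩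
      rw [e3, Finset.card_filter, Nat.cast_sum]
      apply Finset.sum_congr rfl
      intro f _
      by_cases h1 : u ∈ f
      · by_cases h2 : f ∈ M
        · simp [h1, h2]
        · simp [h1, h2]
      · simp [h1]
    · rw [Finset.sum_coe_sort F
        (fun f => if u ∈ f then (if f = e then (1 : ℝ) else 0) else 0)]
      have e3 : ∀ f ∈ F, (if u ∈ f then (if f = e then (1 : ℝ) else 0) else 0) =
          if f = e then (if u ∈ e then (1 : ℝ) else 0) else 0 := by
        intro f _
        by_cases h1 : f = e
        · subst h1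
          simp
        · simp [h1]
      rw [Finset.sum_congr rfl e3, Finset.sum_ite_eq', if_pos he]
  have hM1 : ∀ u : α, (M.filter (fun f => u ∈ f)).card ≤ 1 := by
    intro u
    rw [Finset.card_le_one]
    intro a ha b hb
    rw [mem_filter] at ha hb
    by_contra hab
    exact (Finset.disjoint_left.1 (hm a ha.1 b hb.1 hab)) ha.2 hb.2
  -- the better fractional matching
  have hbetter : (fun f : F => (1 - ε) * w f + ε * z f) ∈ FM F := by
    refine ⟨?_, ?_⟩
    · intro f
      have := hw.1 f
      have := hz0 f
      have h1 : 0 ≤ 1 - ε := by linarith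
      positivity
    · intro u
      have e1 : ∑ f : F, (if u ∈ (f : Finset α) then (1 - ε) * w f + ε * z f else 0) =
          (1 - ε) * (∑ f : F, (if u ∈ (f : Finset α) then w f else 0)) +
          ε * (∑ f : F, (if u ∈ (f : Finset α) then z f else 0)) := by
        rw [Finset.mul_sum, Finset.mul_sum, ← Finset.sum_add_distrib]
        apply Finset.sum_congr rfl
        intro f _
        by_cases hf : u ∈ (f : Finset α)
        · simp only [hf, if_true]
        · simp only [hf, if_false, mul_zero, add_zero]
      rw [e1, hload]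
      have h1 : ((M.filter (fun f => u ∈ f)).card : ℝ) ≤ 1 := by
        exact_mod_cast hM1 u
      by_cases huv : u = v
      · subst huv
        rw [if_pos hv]
        have h2 : ∑ f : F, (if u ∈ (f : Finset α) then w f else 0) = 1 - δ := by
          rw [hδ]
          ring
        rw [h2]
        have h3 : ε * (((M.filter (fun f => u ∈ f)).card : ℝ) + 1) ≤ ε * 2 := by
          apply mul_le_mul_of_nonneg_left _ hε0.le
          linarith
        have h4 : (1 - ε) * (1 - δ) + ε * 2 ≤ 1 := by
          rw [hε]
          nlinarith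
        linarith
      · by_cases hue : u ∈ e
        · have h2 : M.filter (fun f => u ∈ f) = ∅ := by
            rw [Finset.filter_eq_empty_iff]
            intro f hf huf
            exact (Finset.disjoint_left.1 (hav f hf)) huf (mem_erase.2 ⟨huv, hue⟩)
          rw [h2, if_pos hue, card_empty, Nat.cast_zero, zero_add, mul_one]
          have h3 : (1 - ε) * (∑ f : F, (if u ∈ (f : Finset α) then w f else 0)) ≤
              (1 - ε) * 1 := by
            apply mul_le_mul_of_nonneg_left (hw.2 u)
            linarith
          linarith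
        · rw [if_neg hue, add_zero]
          have h3 : (1 - ε) * (∑ f : F, (if u ∈ (f : Finset α) then w f else 0)) ≤
              (1 - ε) * 1 := by
            apply mul_le_mul_of_nonneg_left (hw.2 u)
            linarith
          have h4 : ε * ((M.filter (fun f => u ∈ f)).card : ℝ) ≤ ε * 1 :=
            mul_le_mul_of_nonneg_left h1 hε0.le
          linarith
  have h1 := hmax _ hbetter
  have h2 : ∑ f : F, ((1 - ε) * w f + ε * z f) = (1 - ε) * (∑ f : F, w f) +
      ε * ((nu F : ℝ) + 1) := by
    rw [Finset.sum_add_distrib, ← Finset.mul_sum, ← Finset.mul_sum, hzsum]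
  rw [h2] at h1
  have h3 := hfrac w hw
  nlinarith

theorem frac_case {F : Finset (Finset α)} {k : ℕ} (hk : 1 ≤ k) (hu : ∀ f ∈ F, f.card = k)
    (hres : Resilient (k - 1) F)
    (hfrac : ∀ w ∈ FM F, ∑ f : F, w f < (nu F : ℝ) + 1) :
    (F.biUnion id).card ≤ k * nu F + k - 1 := by
  have hne : ∀ f ∈ F, f.Nonempty := by
    intro f hf
    rw [← Finset.card_pos, hu f hf]
    omega
  obtain ⟨w, hw, hmax⟩ := exists_opt hne
  have h1 : ∀ v ∈ F.biUnion id, ∑ f : F, (if v ∈ (f : Finset α) then w f else 0) = 1 := by
    intro v hv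
    rw [mem_biUnion] at hv
    obtain ⟨e, he, hve⟩ := hv
    exact saturated hk hu hres hfrac hw hmax he hve
  have h2 : ((F.biUnion id).card : ℝ) = k * ∑ f : F, w f := by
    calc ((F.biUnion id).card : ℝ) = ∑ v ∈ F.biUnion id, (1 : ℝ) := by simp
      _ = ∑ v ∈ F.biUnion id, ∑ f : F, (if v ∈ (f : Finset α) then w f else 0) :=
        Finset.sum_congr rfl (fun v hv => (h1 v hv).symm)
      _ = ∑ f : F, ∑ v ∈ F.biUnion id, (if v ∈ (f : Finset α) then w f else 0) :=
        Finset.sum_comm
      _ = ∑ f : F, k * w f := by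
        apply Finset.sum_congr rfl
        intro f _
        rw [← Finset.sum_filter, Finset.sum_const, nsmul_eq_mul]
        congr 2
        rw [← hu f f.2]
        congr 1
        ext v
        rw [mem_filter]
        constructor
        · rintro ⟨_, h⟩
          exact h
        · intro h
          exact ⟨mem_biUnion.2 ⟨f, f.2, h⟩, h⟩
      _ = k * ∑ f : F, w f := by rw [Finset.mul_sum]
  have h3 := hfrac w hw
  have hk0 : (0 : ℝ) < k := by exact_mod_cast (by omega : 0 < k)
  have h4 : ((F.biUnion id).card : ℝ) < k * ((nu F : ℝ) + 1) := by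
    rw [h2]
    exact mul_lt_mul_of_pos_left h3 hk0
  have h5 : (F.biUnion id).card < k * (nu F + 1) := by
    exact_mod_cast h4
  have h6 : k * (nu F + 1) = k * nu F + k := by ring
  omega

end Pool.Agent.H49.Res
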