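import Pool.Agent.H49.Res.Defs

set_option autoImplicit false
set_option linter.unusedSectionVars false

/-!
Heavy sets relative to a maximum matching and the augmentation lemma.
-/

namespace Pool.Agent.H49.Res

open Finset

variable {α : Type*} [DecidableEq α]

/-- The set `P` extends to members of `F` outside `A` in a robust way. -/
def Heavy (F : Finset (Finset α)) (A : Finset α) (K : ℕ) (P : Finset α) : Prop :=
  ∀ W : Finset α, W.card ≤ K → ∃ f ∈ F, f ∩ A = P ∧ Disjoint (f \ A) W

/-- The edges of the maximum matching. -/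
def line {s k : ℕ} (pt : Fin s × Fin k → α) (i : Fin s) : Finset α :=
  univ.image (fun c => pt (i, c))

/-- The vertices of the maximum matching. -/
def AA {s k : ℕ} (pt : Fin s × Fin k → α) : Finset α := univ.image pt

/-- A `k`-graph with an enumerated maximum matching. -/
structure Base (F : Finset (Finset α)) (k s : ℕ) (pt : Fin s × Fin k → α) : Prop where
  unif : ∀ f ∈ F, f.card = k
  kpos : 2 ≤ k
  inj : Function.Injective pt
  mem : ∀ i, line pt i ∈ F
  max : ∀ M ⊆ F, IsMatching M → M.card ≤ s
  degb : ∀ d T, T.card + d = k → deg F T ≤ (k * s) ^ d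

lemma exists_base {F : Finset (Finset α)} {k : ℕ} (hk : 2 ≤ k) (hu : ∀ f ∈ F, f.card = k)
    (hres : Resilient (k - 1) F) : ∃ pt : Fin (nu F) × Fin k → α, Base F k (nu F) pt := by
  obtain ⟨M, hM, hm, hc⟩ := exists_matching F
  let E : M ≃ Fin (nu F) := M.equivFinOfCardEq hc
  have hcard : ∀ i, ((E.symm i : M) : Finset α).card = k := fun i => hu _ (hM (E.symm i).2)
  let b : ∀ i, ((E.symm i : M) : Finset α) ≃ Fin k := fun i => Finset.equivFinOfCardEq (hcard i)
  let pt : Fin (nu F) × Fin k → α := fun x => ((b x.1).symm x.2 : α)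
  have hmem : ∀ i c, pt (i, c) ∈ ((E.symm i : M) : Finset α) := fun i c => ((b i).symm c).2
  have hline : ∀ i, line pt i = ((E.symm i : M) : Finset α) := by
    intro i
    ext x
    rw [line, mem_image]
    constructor
    · rintro ⟨c, _, rfl⟩
      exact hmem i c
    · intro hx
      refine ⟨b i ⟨x, hx⟩, mem_univ _, ?_⟩
      change (((b i).symm (b i ⟨x, hx⟩) : _) : α) = x
      rw [Equiv.symm_apply_apply]
  refine ⟨pt, hu, hk, ?_, ?_, ?_, ?_⟩
  · rintro ⟨i, c⟩ ⟨i', c'⟩ h
    have hii : i = i' := by
      by_contra hne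
      have hne' : ((E.symm i : M) : Finset α) ≠ ((E.symm i' : M) : Finset α) := by
        intro h'
        exact hne (E.symm.injective (Subtype.ext h'))
      have hd := hm _ (E.symm i).2 _ (E.symm i').2 hne'
      exact (Finset.disjoint_left.1 hd) (hmem i c) (h ▸ hmem i' c')
    subst hii
    have h1 : (b i).symm c = (b i).symm c' := Subtype.ext h
    rw [(b i).symm.injective h1]
  · intro i
    rw [hline]
    exact hM (E.symm i).2
  · intro M' hM' hm'
    exact card_le_nu hM' hm'
  · intro d T hT
    exact deg_le hu hres d T hT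

section augment

variable {F : Finset (Finset α)} {k s : ℕ} {pt : Fin s × Fin k → α} {K : ℕ}

lemma line_subset (i : Fin s) : line pt i ⊆ AA pt := by
  intro x hx
  rw [line, mem_image] at hx
  obtain ⟨c, _, rfl⟩ := hx
  exact mem_image_of_mem _ (mem_univ _)

lemma Base.line_disjoint (h : Base F k s pt) {i i' : Fin s} (hii : i ≠ i') :
    Disjoint (line pt i) (line pt i') := by
  rw [Finset.disjoint_left]
  intro x hx hx'
  rw [line, mem_image] at hx hx'
  obtain ⟨c, _, rfl⟩ := hx
  obtain ⟨c', _, hc'⟩ := hx'
  have := h.inj hc'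
  exact hii (congrArg Prod.fst this).symm

lemma Base.line_card (h : Base F k s pt) (i : Fin s) : (line pt i).card = k := h.unif _ (h.mem i)

lemma Base.line_inj (h : Base F k s pt) : Function.Injective (line pt) := by
  intro i i' hii
  by_contra hne
  have h1 := h.line_disjoint hne
  rw [hii, disjoint_self] at h1
  have h2 := h.line_card i'
  have h3 := h.kpos
  rw [h1] at h2
  simp at h2
  omega

lemma Base.meets (h : Base F k s pt) {f : Finset α} (hf : f ∈ F) : (f ∩ AA pt).Nonempty := by
  by_contra hcon
  rw [Finset.not_nonempty_iff_eq_empty] at hcon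
  have hdis : ∀ i, Disjoint f (line pt i) := by
    intro i
    rw [Finset.disjoint_left]
    intro x hx hx'
    have : x ∈ f ∩ AA pt := mem_inter.2 ⟨hx, line_subset i hx'⟩
    rw [hcon] at this
    exact absurd this (Finset.notMem_empty x)
  have hfne : f.Nonempty := by
    rw [← Finset.card_pos, h.unif f hf]
    have := h.kpos
    omega
  have hnot : f ∉ univ.image (line pt) := by
    intro hmem
    rw [mem_image] at hmem
    obtain ⟨i, _, rfl⟩ := hmem
    have := hdis i
    rw [disjoint_self] at this
    exact hfne.ne_empty this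
  have h1 := h.max (insert f (univ.image (line pt)))
    (by
      apply insert_subset hf
      intro e he
      rw [mem_image] at he
      obtain ⟨i, _, rfl⟩ := he
      exact h.mem i)
    (by
      apply matching_insert
      · intro a ha b hb hab
        rw [mem_image] at ha hb
        obtain ⟨i, _, rfl⟩ := ha
        obtain ⟨i', _, rfl⟩ := hb
        exact h.line_disjoint (fun hii => hab (by rw [hii]))
      · intro e he
        rw [mem_image] at he
        obtain ⟨i, _, rfl⟩ := he
        exact hdis i)
  rw [card_insert_of_notMem hnot, card_image_of_injective _ h.line_inj, card_univ,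
    Fintype.card_fin] at h1
  omega

lemma Heavy.nonempty (h : Base F k s pt) {P : Finset α} (hP : Heavy F (AA pt) K P) :
    P.Nonempty := by
  obtain ⟨f, hf, hfP, _⟩ := hP ∅ (by simp)
  rw [← hfP]
  exact h.meets hf

lemma Heavy.subset {A P : Finset α} (hP : Heavy F A K P) : P ⊆ A := by
  obtain ⟨f, hf, hfP, _⟩ := hP ∅ (by simp)
  rw [← hfP]
  exact inter_subset_right

/-- Disjoint extensions of heavy sets. -/
lemma exists_extension (hu : ∀ f ∈ F, f.card = k) (A : Finset α) (S : Finset (Finset α)) :
    (∀ P ∈ S, Heavy F A K P) → S.card * k ≤ K →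
    ∃ g : Finset α → Finset α, (∀ P ∈ S, g P ∈ F ∧ g P ∩ A = P) ∧
      ∀ P ∈ S, ∀ P' ∈ S, P ≠ P' → Disjoint (g P \ A) (g P' \ A) := by
  classical
  induction S using Finset.induction_on with
  | empty =>
    intro _ _
    exact ⟨id, fun P hP => absurd hP (Finset.notMem_empty P),
      fun P hP => absurd hP (Finset.notMem_empty P)⟩
  | insert P S hP ih =>
    intro hheavy hK
    rw [card_insert_of_notMem hP] at hK
    obtain ⟨g, hg1, hg2⟩ := ih (fun P' hP' => hheavy P' (mem_insert_of_mem hP')) (by nlinarith)
    obtain ⟨f, hf, hfP, hfW⟩ := hheavy P (mem_insert_self _ _)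
      (S.biUnion (fun P' => g P' \ A)) (by
        refine (card_biUnion_le_card_mul _ _ k ?_).trans (by nlinarith)
        intro P' hP'
        refine (card_le_card sdiff_subset).trans ?_
        rw [hu _ (hg1 P' hP').1])
    rw [Finset.disjoint_biUnion_right] at hfW
    refine ⟨Function.update g P f, ?_, ?_⟩
    · intro P' hP'
      rcases mem_insert.1 hP' with rfl | hP''
      · rw [Function.update_self]
        exact ⟨hf, hfP⟩
      · have hne : P' ≠ P := by
          rintro rfl
          exact hP hP''
        rw [Function.update_of_ne hne]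
        exact hg1 P' hP''
    · intro P₁ h₁ P₂ h₂ h12
      rcases mem_insert.1 h₁ with rfl | h₁'
      · rcases mem_insert.1 h₂ with rfl | h₂'
        · exact absurd rfl h12
        · rw [Function.update_self, Function.update_of_ne h12.symm]
          exact hfW P₂ h₂'
      · rcases mem_insert.1 h₂ with rfl | h₂'
        · rw [Function.update_self, Function.update_of_ne h12]
          exact (hfW P₁ h₁').symm
        · have hne₁ : P₁ ≠ P := by
            rintro rfl
            exact hP h₁'
          have hne₂ : P₂ ≠ P := by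
            rintro rfl
            exact hP h₂'
          rw [Function.update_of_ne hne₁, Function.update_of_ne hne₂]
          exact hg2 P₁ h₁' P₂ h₂' h12

/-- The augmentation lemma. -/
lemma Base.augment (h : Base F k s pt) (J : Finset (Fin s)) (S : Finset (Finset α))
    (hS : ∀ P ∈ S, Heavy F (AA pt) K P) (hd : IsMatching S)
    (hsub : ∀ P ∈ S, P ⊆ J.biUnion (line pt)) (hK : S.card * k ≤ K) : S.card ≤ J.card := by
  obtain ⟨g, hg1, hg2⟩ := exists_extension h.unif (AA pt) S hS hK
  have hginj : Set.InjOn g S := by
    intro P hP P' hP' hPP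
    rw [← (hg1 P hP).2, ← (hg1 P' hP').2, hPP]
  have hcross : ∀ i, i ∉ J → ∀ P ∈ S, Disjoint (line pt i) (g P) := by
    intro i hi P hP
    rw [Finset.disjoint_left]
    intro x hx hx'
    have h1 : x ∈ P := by
      rw [← (hg1 P hP).2]
      exact mem_inter.2 ⟨hx', line_subset i hx⟩
    obtain ⟨j, hj, hxj⟩ := mem_biUnion.1 (hsub P hP h1)
    have hij : i ≠ j := by
      rintro rfl
      exact hi hj
    exact (Finset.disjoint_left.1 (h.line_disjoint hij)) hx hxj
  have hgg : ∀ P ∈ S, ∀ P' ∈ S, P ≠ P' → Disjoint (g P) (g P') := by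
    intro P hP P' hP' hne
    rw [Finset.disjoint_left]
    intro x hx hx'
    by_cases hA : x ∈ AA pt
    · have h1 : x ∈ P := by
        rw [← (hg1 P hP).2]
        exact mem_inter.2 ⟨hx, hA⟩
      have h2 : x ∈ P' := by
        rw [← (hg1 P' hP').2]
        exact mem_inter.2 ⟨hx', hA⟩
      exact (Finset.disjoint_left.1 (hd P hP P' hP' hne)) h1 h2
    · exact (Finset.disjoint_left.1 (hg2 P hP P' hP' hne)) (mem_sdiff.2 ⟨hx, hA⟩)
        (mem_sdiff.2 ⟨hx', hA⟩)
  have hdisj : Disjoint (Jᶜ.image (line pt)) (S.image g) := by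
    rw [Finset.disjoint_left]
    intro a ha ha'
    rw [mem_image] at ha ha'
    obtain ⟨i, hi, rfl⟩ := ha
    obtain ⟨P, hP, hPi⟩ := ha'
    have h1 := hcross i (mem_compl.1 hi) P hP
    rw [hPi, disjoint_self] at h1
    have h2 := h.line_card i
    have h3 := h.kpos
    rw [h1] at h2
    simp at h2
    omega
  have h1 := h.max (Jᶜ.image (line pt) ∪ S.image g)
    (by
      apply union_subset
      · intro e he
        rw [mem_image] at he
        obtain ⟨i, _, rfl⟩ := he
        exact h.mem i
      · intro e he
        rw [mem_image] at he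
        obtain ⟨P, hP, rfl⟩ := he
        exact (hg1 P hP).1)
    (by
      intro a ha b hb hab
      rw [mem_union, mem_image, mem_image] at ha hb
      rcases ha with ⟨i, hi, rfl⟩ | ⟨P, hP, rfl⟩
      · rcases hb with ⟨i', hi', rfl⟩ | ⟨P', hP', rfl⟩
        · exact h.line_disjoint (fun hii => hab (by rw [hii]))
        · exact hcross i (mem_compl.1 hi) P' hP'
      · rcases hb with ⟨i', hi', rfl⟩ | ⟨P', hP', rfl⟩
        · exact (hcross i' (mem_compl.1 hi') P hP).symm
        · exact hgg P hP P' hP' (fun hPP => hab (by rw [hPP])))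
  rw [card_union_of_disjoint hdisj, card_image_of_injective _ h.line_inj,
    card_image_of_injOn hginj, card_compl, Fintype.card_fin] at h1
  have h2 := Finset.card_le_univ J
  rw [Fintype.card_fin] at h2
  omega

end augment

end Pool.Agent.H49.Res
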