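import Pool.Agent.H49.Res.Count

set_option autoImplicit false
set_option linter.unusedSectionVars false

/-!
The numbers of good and of minimal sequences.
-/

namespace Pool.Agent.H49.Res

open Finset

section generic

lemma card_coord {N : Type*} [Fintype N] [DecidableEq N] {q : ℕ} (j : Fin q) (p : N → Prop)
    [DecidablePred p] :
    (univ.filter (fun x : Fin q → N => p (x j))).card =
      (univ.filter p).card * (Fintype.card N) ^ (q - 1) := by
  classical
  have h1 : univ.filter (fun x : Fin q → N => p (x j)) =
      Fintype.piFinset (fun i => if i = j then univ.filter p else univ) := by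
    ext x
    rw [mem_filter, Fintype.mem_piFinset]
    constructor
    · rintro ⟨_, hx⟩ i
      by_cases hi : i = j
      · rw [if_pos hi, hi]
        exact mem_filter.2 ⟨mem_univ _, hx⟩
      · rw [if_neg hi]
        exact mem_univ _
    · intro hx
      have := hx j
      rw [if_pos rfl, mem_filter] at this
      exact ⟨mem_univ _, this.2⟩
  rw [h1, Fintype.card_piFinset]
  have h2 : ∀ i : Fin q, (if i = j then univ.filter p else univ : Finset N).card =
      if i = j then (univ.filter p).card else Fintype.card N := by
    intro i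
    by_cases hi : i = j
    · rw [if_pos hi, if_pos hi]
    · rw [if_neg hi, if_neg hi, card_univ]
  rw [Finset.prod_congr rfl (fun i _ => h2 i), Finset.prod_ite, Finset.prod_const,
    Finset.prod_const, Finset.filter_eq', if_pos (mem_univ j), card_singleton, pow_one]
  congr 2
  rw [Finset.filter_not, Finset.filter_eq', if_pos (mem_univ j), card_sdiff_of_subset
    (subset_univ _), card_univ, Fintype.card_fin, card_singleton]

end generic

section numbers

variable {α : Type*} [DecidableEq α]
variable {s k : ℕ} (F : Finset (Finset α)) (pt : Fin s × Fin k → α) (K : ℕ)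

open Classical in
/-- The number of good sequences of length `q`. -/
noncomputable def XX (q : ℕ) : ℕ :=
  (univ.filter (fun x : Fin q → Fin s × Fin k => Good F pt K x)).card

open Classical in
/-- The number of minimal sequences of length `q`. -/
noncomputable def YY (q : ℕ) : ℕ :=
  (univ.filter (fun x : Fin q → Fin s × Fin k => Mini F pt K x)).card

open Classical in
/-- The number of heavy points. -/
noncomputable def RR : ℕ := (univ.filter (fun z : Fin s × Fin k => Rich F pt K z)).card

variable {F pt K}

open Classical in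
lemma Base.rich_lines (h : Base F k s pt) (hK : 2 * k ≤ K) :
    (univ.filter (fun i : Fin s => ∃ c, Rich F pt K (i, c))).card = RR F pt K := by
  have h1 : univ.filter (fun i : Fin s => ∃ c, Rich F pt K (i, c)) =
      (univ.filter (fun z : Fin s × Fin k => Rich F pt K z)).image Prod.fst := by
    ext i
    rw [mem_filter, mem_image]
    constructor
    · rintro ⟨_, c, hc⟩
      exact ⟨(i, c), mem_filter.2 ⟨mem_univ _, hc⟩, rfl⟩
    · rintro ⟨z, hz, rfl⟩
      exact ⟨mem_univ _, z.2, (mem_filter.1 hz).2⟩
  rw [h1, RR]
  apply card_image_of_injOn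
  intro z hz z' hz' hzz
  exact h.rich_inj hK (mem_filter.1 hz).2 (mem_filter.1 hz').2 hzz

lemma Base.RR_le (h : Base F k s pt) (hK : 2 * k ≤ K) : RR F pt K ≤ s := by
  classical
  rw [← h.rich_lines hK]
  refine (card_le_univ _).trans ?_
  rw [Fintype.card_fin]

lemma Base.XX_le (h : Base F k s pt) (hK : 2 * k * k ≤ K) (q : ℕ) (hq : q ≤ k) :
    XX F pt K q ≤ q * ((s - RR F pt K) * (s * k) ^ (q - 1)) := by
  classical
  have hk2 := h.kpos
  have hKk : 2 * k ≤ K := by nlinarith
  have : NeZero k := ⟨by omega⟩
  have e1 : ∑ x : Fin q → Fin s × Fin k,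
      (univ.filter (fun t : Fin k => Good F pt K (shift t x))).card = k * XX F pt K q := by
    have e2 : ∀ x : Fin q → Fin s × Fin k,
        (univ.filter (fun t : Fin k => Good F pt K (shift t x))).card =
          ∑ t : Fin k, if Good F pt K (shift t x) then 1 else 0 := by
      intro x
      rw [Finset.card_filter]
    rw [Finset.sum_congr rfl (fun x _ => e2 x), Finset.sum_comm]
    have e3 : ∀ t : Fin k, (∑ x : Fin q → Fin s × Fin k,
        if Good F pt K (shift t x) then 1 else 0) = XX F pt K q := by
      intro t
      let φ : (Fin q → Fin s × Fin k) ≃ (Fin q → Fin s × Fin k) :=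
        { toFun := shift t
          invFun := shift (-t)
          left_inv := by
            intro x
            rw [shift_add, add_neg_cancel, shift_zero]
          right_inv := by
            intro x
            rw [shift_add, neg_add_cancel, shift_zero] }
      have e4 := Equiv.sum_comp φ (fun x => if Good F pt K x then 1 else 0)
      rw [XX, Finset.card_filter]
      exact e4
    rw [Finset.sum_congr rfl (fun t _ => e3 t), Finset.sum_const, card_univ, Fintype.card_fin,
      smul_eq_mul]
  have e5 : ∀ x : Fin q → Fin s × Fin k,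
      (univ.filter (fun t : Fin k => Good F pt K (shift t x))).card ≤
        (univ.filter (fun j : Fin q => ¬ ∃ c, Rich F pt K ((x j).1, c))).card := by
    intro x
    by_cases hx : Function.Injective (fun j => (x j).1)
    · have e6 := h.class_bound hK hq x hx (univ.filter (fun t : Fin k => Good F pt K (shift t x)))
        (fun t ht => (mem_filter.1 ht).2)
        (univ.filter (fun j : Fin q => ∃ c, Rich F pt K ((x j).1, c)))
        (fun j hj => (mem_filter.1 hj).2)
      have e7 := Finset.card_filter_add_card_filter_not (s := (univ : Finset (Fin q)))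
        (fun j : Fin q => ∃ c, Rich F pt K ((x j).1, c))
      rw [card_univ, Fintype.card_fin] at e7
      omega
    · rw [Finset.filter_false_of_mem, card_empty]
      · exact Nat.zero_le _
      · intro t _ hg
        exact hx hg.1
  have e8 : ∑ x : Fin q → Fin s × Fin k,
      (univ.filter (fun j : Fin q => ¬ ∃ c, Rich F pt K ((x j).1, c))).card =
      q * (((s - RR F pt K) * k) * (s * k) ^ (q - 1)) := by
    have e2 : ∀ x : Fin q → Fin s × Fin k,
        (univ.filter (fun j : Fin q => ¬ ∃ c, Rich F pt K ((x j).1, c))).card =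
          ∑ j : Fin q, if ¬ ∃ c, Rich F pt K ((x j).1, c) then 1 else 0 := by
      intro x
      rw [Finset.card_filter]
    rw [Finset.sum_congr rfl (fun x _ => e2 x), Finset.sum_comm]
    have e9 : ∀ j : Fin q, (∑ x : Fin q → Fin s × Fin k,
        if ¬ ∃ c, Rich F pt K ((x j).1, c) then 1 else 0) =
        ((s - RR F pt K) * k) * (s * k) ^ (q - 1) := by
      intro j
      rw [← Finset.card_filter, card_coord j (fun z : Fin s × Fin k =>
        ¬ ∃ c, Rich F pt K (z.1, c)), Fintype.card_prod, Fintype.card_fin, Fintype.card_fin]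
      congr 1
      have e10 : univ.filter (fun z : Fin s × Fin k => ¬ ∃ c, Rich F pt K (z.1, c)) =
          (univ.filter (fun i : Fin s => ¬ ∃ c, Rich F pt K (i, c))) ×ˢ
            (univ : Finset (Fin k)) := by
        ext z
        rw [mem_filter, mem_product, mem_filter]
        simp
      rw [e10, card_product, card_univ, Fintype.card_fin]
      congr 1
      have e7 := Finset.card_filter_add_card_filter_not (s := (univ : Finset (Fin s)))
        (fun i : Fin s => ∃ c, Rich F pt K (i, c))
      rw [h.rich_lines hKk, card_univ, Fintype.card_fin] at e7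
      omega
    rw [Finset.sum_congr rfl (fun j _ => e9 j), Finset.sum_const, card_univ, Fintype.card_fin,
      smul_eq_mul]
  have e11 : k * XX F pt K q ≤ q * (((s - RR F pt K) * k) * (s * k) ^ (q - 1)) := by
    rw [← e1, ← e8]
    exact Finset.sum_le_sum (fun x _ => e5 x)
  have e12 : q * (((s - RR F pt K) * k) * (s * k) ^ (q - 1)) =
      k * (q * ((s - RR F pt K) * (s * k) ^ (q - 1))) := by ring
  rw [e12] at e11
  exact Nat.le_of_mul_le_mul_left e11 (by omega)

lemma Base.XX_one (h : Base F k s pt) : XX F pt K 1 = 0 := by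
  classical
  rw [XX, card_eq_zero, filter_eq_empty_iff]
  rintro x _ ⟨_, h2, P, hP, hheavy⟩
  apply h2 0
  have h3 : TT pt x = {pt (x 0)} := by
    rw [TT]
    ext v
    simp
  rw [h3] at hP
  rw [Rich]
  rcases Finset.subset_singleton_iff.1 hP with h4 | h4
  · rw [h4] at hheavy
    exact absurd (Heavy.nonempty h hheavy) Finset.not_nonempty_empty
  · rwa [h4] at hheavy

lemma Base.XX_rec (h : Base F k s pt) (q : ℕ) :
    (XX F pt K q : ℤ) * (s * k - RR F pt K - q * k) + YY F pt K (q + 1) ≤
      XX F pt K (q + 1) := by
  classical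
  let B : (Fin q → Fin s × Fin k) → Finset (Fin s × Fin k) := fun x =>
    univ.filter (fun z => (∀ j, z.1 ≠ (x j).1) ∧ ¬ Rich F pt K z)
  have hB : ∀ x, (s * k : ℤ) - RR F pt K - q * k ≤ (B x).card := by
    intro x
    have h1 : (univ : Finset (Fin s × Fin k)) ⊆ B x ∪
        (univ.filter (fun z : Fin s × Fin k => Rich F pt K z) ∪
          (univ : Finset (Fin q)).biUnion (fun j => ({(x j).1} : Finset (Fin s)) ×ˢ
            (univ : Finset (Fin k)))) := by
      intro z _
      by_cases h2 : Rich F pt K z
      · exact mem_union_right _ (mem_union_left _ (mem_filter.2 ⟨mem_univ _, h2⟩))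
      · by_cases h3 : ∀ j, z.1 ≠ (x j).1
        · exact mem_union_left _ (mem_filter.2 ⟨mem_univ _, h3, h2⟩)
        · push Not at h3
          obtain ⟨j, hj⟩ := h3
          apply mem_union_right
          apply mem_union_right
          rw [mem_biUnion]
          refine ⟨j, mem_univ _, ?_⟩
          rw [mem_product, mem_singleton]
          exact ⟨hj, mem_univ _⟩
    have h2 := card_le_card h1
    rw [card_univ, Fintype.card_prod, Fintype.card_fin, Fintype.card_fin] at h2
    have h3 := card_union_le (B x)
      (univ.filter (fun z : Fin s × Fin k => Rich F pt K z) ∪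
          (univ : Finset (Fin q)).biUnion (fun j => ({(x j).1} : Finset (Fin s)) ×ˢ
            (univ : Finset (Fin k))))
    have h4 := card_union_le (univ.filter (fun z : Fin s × Fin k => Rich F pt K z))
      ((univ : Finset (Fin q)).biUnion (fun j => ({(x j).1} : Finset (Fin s)) ×ˢ
            (univ : Finset (Fin k))))
    have h5 : ((univ : Finset (Fin q)).biUnion (fun j => ({(x j).1} : Finset (Fin s)) ×ˢ
            (univ : Finset (Fin k)))).card ≤ q * k := by
      refine (card_biUnion_le_card_mul _ _ k ?_).trans ?_
      · intro j _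
        rw [card_product, card_singleton, card_univ, Fintype.card_fin, one_mul]
      · rw [card_univ, Fintype.card_fin]
    have h6 : (univ.filter (fun z : Fin s × Fin k => Rich F pt K z)).card = RR F pt K := rfl
    have h7 : s * k ≤ (B x).card + RR F pt K + q * k := by omega
    have h8 : ((s * k : ℕ) : ℤ) ≤ (((B x).card + RR F pt K + q * k : ℕ) : ℤ) := by
      exact_mod_cast h7
    push_cast at h8
    linarith
  let G : Finset (Fin q → Fin s × Fin k) := univ.filter (fun x => Good F pt K x)
  let S : Finset ((_ : Fin q → Fin s × Fin k) × (Fin s × Fin k)) := G.sigma B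
  let φ : ((_ : Fin q → Fin s × Fin k) × (Fin s × Fin k)) → (Fin (q + 1) → Fin s × Fin k) :=
    fun p => Fin.cons p.2 p.1
  have hφinj : Set.InjOn φ S := by
    rintro ⟨x, z⟩ _ ⟨x', z'⟩ _ hxx
    have h1 : (Fin.cons z x : Fin (q + 1) → Fin s × Fin k) = Fin.cons z' x' := hxx
    have h2 := Fin.cons_injective2 h1
    rw [h2.1, h2.2]
  have hTT : ∀ (z : Fin s × Fin k) (x : Fin q → Fin s × Fin k),
      TT pt (Fin.cons z x : Fin (q + 1) → Fin s × Fin k) = insert (pt z) (TT pt x) := by
    intro z x
    ext v
    rw [TT, TT, mem_image, mem_insert, mem_image]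
    constructor
    · rintro ⟨j, _, rfl⟩
      refine Fin.cases ?_ (fun j => ?_) j
      · left
        rw [Fin.cons_zero]
      · right
        exact ⟨j, mem_univ _, by rw [Fin.cons_succ]⟩
    · rintro (rfl | ⟨j, _, rfl⟩)
      · exact ⟨0, mem_univ _, by rw [Fin.cons_zero]⟩
      · exact ⟨j.succ, mem_univ _, by rw [Fin.cons_succ]⟩
  have hGood : ∀ p ∈ S, Good F pt K (φ p) ∧ ¬ Mini F pt K (φ p) := by
    rintro ⟨x, z⟩ hp
    rw [Finset.mem_sigma] at hp
    obtain ⟨hx, hz⟩ := hp
    have hx' : Good F pt K x := (mem_filter.1 hx).2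
    have hz' : (∀ j, z.1 ≠ (x j).1) ∧ ¬ Rich F pt K z := (mem_filter.1 hz).2
    obtain ⟨hinj, hav, P, hP, hheavy⟩ := hx'
    have hnotin : pt z ∉ TT pt x := by
      intro hmem
      rw [TT, mem_image] at hmem
      obtain ⟨j, _, hj⟩ := hmem
      exact hz'.1 j (by rw [h.inj hj])
    refine ⟨⟨?_, ?_, P, ?_, hheavy⟩, ?_⟩
    · intro i j hij
      change ((Fin.cons z x : Fin (q + 1) → Fin s × Fin k) i).1 =
        ((Fin.cons z x : Fin (q + 1) → Fin s × Fin k) j).1 at hij
      revert hij
      refine Fin.cases ?_ (fun i => ?_) i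
      · refine Fin.cases ?_ (fun j => ?_) j
        · intro _
          rfl
        · intro hij
          rw [Fin.cons_zero, Fin.cons_succ] at hij
          exact absurd hij (hz'.1 j)
      · refine Fin.cases ?_ (fun j => ?_) j
        · intro hij
          rw [Fin.cons_zero, Fin.cons_succ] at hij
          exact absurd hij.symm (hz'.1 i)
        · intro hij
          rw [Fin.cons_succ, Fin.cons_succ] at hij
          rw [hinj hij]
    · intro j
      change ¬ Rich F pt K ((Fin.cons z x : Fin (q + 1) → Fin s × Fin k) j)
      refine Fin.cases ?_ (fun j => ?_) j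
      · rw [Fin.cons_zero]
        exact hz'.2
      · rw [Fin.cons_succ]
        exact hav j
    · change P ⊆ TT pt (Fin.cons z x : Fin (q + 1) → Fin s × Fin k)
      rw [hTT]
      exact hP.trans (subset_insert _ _)
    · rintro ⟨_, _, _, hmin⟩
      apply hmin P _ hheavy
      change P ⊂ TT pt (Fin.cons z x : Fin (q + 1) → Fin s × Fin k)
      rw [hTT]
      exact lt_of_le_of_lt hP (ssubset_insert hnotin)
  have hsub : S.image φ ∪ univ.filter (fun x : Fin (q + 1) → Fin s × Fin k => Mini F pt K x) ⊆
      univ.filter (fun x : Fin (q + 1) → Fin s × Fin k => Good F pt K x) := by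
    apply union_subset
    · intro y hy
      rw [mem_image] at hy
      obtain ⟨p, hp, rfl⟩ := hy
      exact mem_filter.2 ⟨mem_univ _, (hGood p hp).1⟩
    · intro y hy
      have hy' := (mem_filter.1 hy).2
      exact mem_filter.2 ⟨mem_univ _, hy'.1, hy'.2.1, _, Subset.rfl, hy'.2.2.1⟩
  have hdisj : Disjoint (S.image φ)
      (univ.filter (fun x : Fin (q + 1) → Fin s × Fin k => Mini F pt K x)) := by
    rw [Finset.disjoint_left]
    intro y hy hy'
    rw [mem_image] at hy
    obtain ⟨p, hp, rfl⟩ := hy
    exact (hGood p hp).2 (mem_filter.1 hy').2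
  have hcard := card_le_card hsub
  rw [card_union_of_disjoint hdisj, card_image_of_injOn hφinj, Finset.card_sigma] at hcard
  have h9 : (∑ x ∈ G, ((B x).card : ℤ)) + YY F pt K (q + 1) ≤ XX F pt K (q + 1) := by
    have : ((∑ x ∈ G, (B x).card + YY F pt K (q + 1) : ℕ) : ℤ) ≤ (XX F pt K (q + 1) : ℕ) := by
      exact_mod_cast hcard
    push_cast at this
    exact this
  have h10 : (XX F pt K q : ℤ) * (s * k - RR F pt K - q * k) ≤ ∑ x ∈ G, ((B x).card : ℤ) := by
    have : ∑ x ∈ G, ((s * k : ℤ) - RR F pt K - q * k) ≤ ∑ x ∈ G, ((B x).card : ℤ) :=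
      Finset.sum_le_sum (fun x _ => hB x)
    rw [Finset.sum_const, nsmul_eq_mul] at this
    exact this
  linarith

end numbers

end Pool.Agent.H49.Res
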